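import Pool.Agent.Q33.FP.Ext

/-!
Affine varieties: heights of points, homogenisation.
-/

set_option autoImplicit false

open FF MvPolynomial Pool.Agent.W603.LV
open Pool.Agent.H533R3.SL (cur GU aeval_cur)
open Pool.Agent.Y215.AF (homC homC_sum cur_homC_zero cur_homC_succ)
open Pool.Agent.W235.RM (hmg hmg_homog hmg_eval)

namespace Pool.Agent.Q33.FP

variable {k κ K : Type} [Field k] [Field κ] [Field K] [Algebra k K] [Algebra κ K] {n r : ℕ}

theorem mo_congr {ι ι' : Type} (P : Place k K) {x : ι → K} {y : ι' → K}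
    (h : ∀ a : K, a ≠ 0 → ((∃ c, x c = a) ↔ ∃ c, y c = a)) : mo P x = mo P y := by
  unfold mo
  rw [iInf, iInf]
  congr 1
  ext t
  constructor
  · rintro ⟨⟨c, hc⟩, rfl⟩
    obtain ⟨c', hc'⟩ := (h _ hc).1 ⟨c, rfl⟩
    exact ⟨⟨c', by rw [hc']; exact hc⟩, by simp only [hc']⟩
  · rintro ⟨⟨c, hc⟩, rfl⟩
    obtain ⟨c', hc'⟩ := (h _ hc).2 ⟨c, rfl⟩
    exact ⟨⟨c', by rw [hc']; exact hc⟩, by simp only [hc']⟩

theorem ht_congr {ι ι' : Type} {x : ι → K} {y : ι' → K}
    (h : ∀ a : K, a ≠ 0 → ((∃ c, x c = a) ↔ ∃ c, y c = a)) : ht k x = ht k y := by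
  unfold ht
  rw [finsum_congr fun P : Place k K => mo_congr P h]

variable (k) in
/-- The height of the point `(1 : x)`. -/
noncomputable def aht {ι : Type} (x : ι → K) : ℤ := ht k fun o : Option ι => o.elim 1 x

theorem ht_cons (x : Fin n → K) : ht k (Fin.cons 1 x : Fin (n + 1) → K) = aht k x := by
  refine ht_congr fun a _ => ?_
  constructor
  · rintro ⟨c, rfl⟩
    refine Fin.cases ?_ (fun i => ?_) c
    · exact ⟨none, rfl⟩
    · exact ⟨some i, rfl⟩
  · rintro ⟨o, rfl⟩
    cases o with
    | none => exact ⟨0, rfl⟩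
    | some i => exact ⟨i.succ, rfl⟩

theorem vht_homC (v : Fin r → Fin n → K) :
    vht k (homC v) = aht k fun p : Fin r × Fin n => v p.1 p.2 := by
  refine ht_congr fun a ha => ?_
  constructor
  · rintro ⟨⟨j, i⟩, h⟩
    revert h
    refine Fin.cases ?_ (fun j => ?_) j
    · refine Fin.cases ?_ (fun i => ?_) i
      · intro h
        exact ⟨none, h⟩
      · intro h
        exact absurd h.symm ha
    · refine Fin.cases ?_ (fun i => ?_) i
      · intro h
        exact absurd h.symm ha
      · intro h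
        exact ⟨some (j, i), h⟩
  · rintro ⟨o, h⟩
    cases o with
    | none => exact ⟨(0, 0), h⟩
    | some p => exact ⟨(p.1.succ, p.2.succ), h⟩

theorem pt_homC (v : Fin r → Fin n → K) (u : Fin r → K) :
    pt (homC v) (Fin.cons 1 u) = (Fin.cons 1 (fun i => ∑ j, v j i * u j) : Fin (n + 1) → K) := by
  funext i
  unfold pt
  rw [Fin.sum_univ_succ]
  refine Fin.cases ?_ (fun i => ?_) i
  · simp [homC]
  · simp [homC]

theorem mul_homC (v : Fin r → Fin n → K) (u : Fin r → K) :
    (fun j i => homC v j i * (Fin.cons 1 u : Fin (r + 1) → K) j) = homC fun j i => v j i * u j := by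
  funext j i
  refine Fin.cases ?_ (fun j => ?_) j
  · refine Fin.cases ?_ (fun i => ?_) i
    · simp [homC]
    · simp [homC]
  · refine Fin.cases ?_ (fun i => ?_) i
    · simp [homC]
    · simp [homC]

theorem aeval_hmg (d : ℕ) (F : MvPolynomial (Fin n) κ) (hF : F.totalDegree ≤ d) (x : Fin n → K) :
    aeval (Fin.cons 1 x : Fin (n + 1) → K) (hmg d F) = aeval x F := by
  have h1 := hmg_eval (algebraMap κ K) d F hF 1 x
  simp only [one_mul, one_pow] at h1
  rw [aeval_def, aeval_def]
  exact h1

theorem cht_hmg [CharZero k] [IsFF k K] [IsAlgClosed k] (d : ℕ) (F : MvPolynomial (Fin n) κ) :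
    cht k K (hmg d F) ≤ cht k K F := by
  classical
  by_cases h0 : F = 0
  · have h1 : hmg d F = 0 := by
      rw [h0]
      unfold hmg
      simp
    rw [h1, h0]
    unfold cht
    rw [ht_zero fun c => by rw [coeff_zero, map_zero], ht_zero fun c => by
      rw [coeff_zero, map_zero]]
  · have hs := mo_supp (k := k) (coeff_finite (K := K) F)
    refine ht_le (coeff_finite _) ?_ (fun P => mo P fun m => algebraMap κ K (coeff m F)) hs ?_
    · obtain ⟨α, hα⟩ := MvPolynomial.ne_zero_iff.1 h0
      refine ⟨Finsupp.cons (d - ∑ i, α i) α, ?_⟩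
      rw [Ne, map_eq_zero]
      unfold hmg
      rw [coeff_sum, Finset.sum_eq_single α]
      · rw [coeff_monomial, if_pos rfl]
        exact hα
      · intro β _ hβ
        rw [coeff_monomial, if_neg]
        intro h
        apply hβ
        have h1 := congrArg Finsupp.tail h
        rwa [Finsupp.tail_cons, Finsupp.tail_cons] at h1
      · intro h
        exact absurd (mem_support_iff.2 hα) h
    · intro P β
      unfold hmg
      rw [coeff_sum, map_sum]
      refine Ge.sum _ _ fun α _ => ?_
      rw [coeff_monomial]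
      split_ifs
      · exact mo_ge P (coeff_finite F) α
      · rw [map_zero]
        exact Ge.zero

end Pool.Agent.Q33.FP
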