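import Pool.Agent.Q33.FP.Core

/-!
The constant of the degree bound.
-/

set_option autoImplicit false

open FF MvPolynomial Pool.Agent.W603.LV
open Pool.Agent.H533R3.SL (cur GU aeval_cur)
open Pool.Agent.Q33.SP (diffs mem_diffs gen gen_spec dif)

namespace Pool.Agent.Q33.FP

variable {r : ℕ}

/-- an integral seminorm -/
structure SN (ν : (Fin r → ℤ) → ℤ) : Prop where
  nonneg : ∀ a, 0 ≤ ν a
  add : ∀ a b, ν (a + b) ≤ ν a + ν b
  neg : ∀ a, ν (-a) = ν a
  smul : ∀ (N : ℕ) a, ν (N • a) = N * ν a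

theorem closure_bound (A : Set (Fin r → ℤ)) {x : Fin r → ℤ} (hx : x ∈ AddSubgroup.closure A) :
    ∃ c : ℕ, ∀ ν, SN ν → ∀ B : ℤ, 0 ≤ B → (∀ a ∈ A, ν a ≤ B) → ν x ≤ c * B := by
  induction hx using AddSubgroup.closure_induction with
  | mem y hy =>
    refine ⟨1, fun ν _ B _ h => ?_⟩
    rw [Nat.cast_one, one_mul]
    exact h y hy
  | zero =>
    refine ⟨0, fun ν hν B _ _ => ?_⟩
    have h1 := hν.smul 0 0
    rw [zero_smul, Nat.cast_zero, zero_mul] at h1
    rw [h1, Nat.cast_zero, zero_mul]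
  | add y z _ _ hy hz =>
    obtain ⟨c, hc⟩ := hy
    obtain ⟨c', hc'⟩ := hz
    refine ⟨c + c', fun ν hν B hB h => ?_⟩
    have h1 := hc ν hν B hB h
    have h2 := hc' ν hν B hB h
    have h3 := hν.add y z
    push_cast
    linarith
  | neg y _ hy =>
    obtain ⟨c, hc⟩ := hy
    exact ⟨c, fun ν hν B hB h => by rw [hν.neg]; exact hc ν hν B hB h⟩

theorem diffs_sum {d : ℕ} {A : Finset (Fin r → ℤ)} (hA : A ⊆ diffs r d) :
    ∀ v ∈ (A : Set (Fin r → ℤ)), ∑ j, v j = 0 := by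
  classical
  intro v hv
  have h1 : v ∈ diffs r d := hA hv
  unfold diffs at h1
  exact (Finset.mem_filter.1 h1).2

theorem exists_alpha (r d : ℕ) : ∃ α : ℕ, ∀ A : Finset (Fin r → ℤ), A ⊆ diffs r d →
    ∀ j l, gen A j = gen A l → ∀ ν, SN ν → ∀ B : ℤ, 0 ≤ B → (∀ a ∈ A, ν a ≤ B) →
      ν (dif j l) ≤ α * B := by
  classical
  have h1 : ∀ q : Finset (Fin r → ℤ) × Fin r × Fin r, ∃ α : ℕ, q.1 ⊆ diffs r d →
      gen q.1 q.2.1 = gen q.1 q.2.2 → ∀ ν, SN ν → ∀ B : ℤ, 0 ≤ B → (∀ a ∈ q.1, ν a ≤ B) →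
      ν (dif q.2.1 q.2.2) ≤ α * B := by
    rintro ⟨A, j, l⟩
    by_cases hA : A ⊆ diffs r d
    · by_cases hjl : gen A j = gen A l
      · obtain ⟨N, hN, hcl⟩ := (gen_spec A (diffs_sum hA)).2 j l hjl
        obtain ⟨c, hc⟩ := closure_bound _ hcl
        refine ⟨c, fun _ _ ν hν B hB h => ?_⟩
        have h2 := hc ν hν B hB h
        rw [hν.smul] at h2
        have h3 := hν.nonneg (dif j l)
        have h4 : (1 : ℤ) ≤ N := by exact_mod_cast hN
        exact le_trans (le_mul_of_one_le_left h3 h4) h2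
      · exact ⟨0, fun _ h => absurd h hjl⟩
    · exact ⟨0, fun h => absurd h hA⟩
  choose f hf using h1
  refine ⟨∑ q ∈ (diffs r d).powerset ×ˢ (Finset.univ ×ˢ Finset.univ), f q, ?_⟩
  intro A hA j l hjl ν hν B hB h
  refine (hf (A, j, l) hA hjl ν hν B hB h).trans (mul_le_mul_of_nonneg_right ?_ hB)
  have h2 : f (A, j, l) ≤ ∑ q ∈ (diffs r d).powerset ×ˢ (Finset.univ ×ˢ Finset.univ), f q :=
    Finset.single_le_sum (f := f) (fun _ _ => Nat.zero_le _) (by
      rw [Finset.mem_product, Finset.mem_product, Finset.mem_powerset]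
      exact ⟨hA, Finset.mem_univ _, Finset.mem_univ _⟩)
  exact_mod_cast h2

/-- the height of the monomials is a seminorm -/
theorem sn_hgt {k K : Type} [Field k] [Field K] [Algebra k K] [CharZero k] [IsFF k K]
    [IsAlgClosed k] {u : Fin r → K} (hu : ∀ j, u j ≠ 0) : SN fun a => hgt k (um u a) where
  nonneg := fun _ => hgt_nonneg _
  add := fun a b => by
    rw [um_add hu]
    exact hgt_mul (um_ne hu a) (um_ne hu b)
  neg := fun a => by
    rw [um_neg, hgt_inv]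
  smul := fun N a => by
    rw [um_smul, hgt_pow (um_ne hu a)]

theorem choose_mono {r e d : ℕ} (hr : 0 < r) (h : e ≤ d) :
    (r + e - 1).choose e ≤ (r + d - 1).choose d := by
  obtain ⟨t, rfl⟩ : ∃ t, r = t + 1 := ⟨r - 1, by omega⟩
  have h1 : ∀ m : ℕ, (t + 1 + m - 1).choose m = (t + m).choose t := by
    intro m
    have : t + 1 + m - 1 = t + m := by omega
    rw [this]
    exact (Nat.choose_symm_add (a := t) (b := m)).symm
  rw [h1, h1]
  exact Nat.choose_le_choose t (by omega)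

end Pool.Agent.Q33.FP
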