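import Pool.Agent.Q33.FP.Sub
import Pool.Agent.Q33.FP.Ineq
import Pool.Agent.Q33.SP.Core

/-!
Points over function fields which are sums of `r` terms: splitting of the equations.
-/

set_option autoImplicit false

open FF MvPolynomial Pool.Agent.W603.LV
open Pool.Agent.H533R3.SL (cur GU aeval_cur)
open Pool.Agent.Q33.SP (diffs mem_diffs gen gen_spec dif)

namespace Pool.Agent.Q33.FP

variable {k κ K : Type} [Field k] [Field κ] [Field K] [Algebra k K] [Algebra κ K] {n r : ℕ}

/-- monomials with integral exponents -/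
def um (u : Fin r → K) (l : Fin r → ℤ) : K := ∏ j, u j ^ l j

theorem um_ne {u : Fin r → K} (hu : ∀ j, u j ≠ 0) (l : Fin r → ℤ) : um u l ≠ 0 :=
  Finset.prod_ne_zero_iff.2 fun j _ => zpow_ne_zero _ (hu j)

theorem um_add {u : Fin r → K} (hu : ∀ j, u j ≠ 0) (a b : Fin r → ℤ) :
    um u (a + b) = um u a * um u b := by
  unfold um
  rw [← Finset.prod_mul_distrib]
  refine Finset.prod_congr rfl fun j _ => ?_
  rw [Pi.add_apply, zpow_add₀ (hu j)]

theorem um_neg (u : Fin r → K) (a : Fin r → ℤ) : um u (-a) = (um u a)⁻¹ := by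
  unfold um
  rw [← Finset.prod_inv_distrib]
  refine Finset.prod_congr rfl fun j _ => ?_
  rw [Pi.neg_apply, zpow_neg]

theorem um_smul (u : Fin r → K) (N : ℕ) (a : Fin r → ℤ) : um u (N • a) = um u a ^ N := by
  unfold um
  rw [← Finset.prod_pow]
  refine Finset.prod_congr rfl fun j _ => ?_
  rw [Pi.smul_apply, nsmul_eq_mul, mul_comm, zpow_mul, zpow_natCast]

theorem um_sub {u : Fin r → K} (hu : ∀ j, u j ≠ 0) (a b : Fin r →₀ ℕ) :
    um u (fun j => (a j : ℤ) - b j) = (∏ j, u j ^ a j) / ∏ j, u j ^ b j := by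
  unfold um
  rw [← Finset.prod_div_distrib]
  refine Finset.prod_congr rfl fun j _ => ?_
  rw [zpow_sub₀ (hu j), zpow_natCast, zpow_natCast]

theorem um_dif {u : Fin r → K} (hu : ∀ j, u j ≠ 0) (j l : Fin r) :
    um u (dif j l) = u j / u l := by
  classical
  unfold um dif
  have h1 : ∀ a : Fin r, ∏ i, u i ^ (if i = a then (1 : ℤ) else 0) = u a := by
    intro a
    rw [Finset.prod_congr rfl (g := fun i => if i = a then u i else 1) fun i _ => by
      split_ifs
      · rw [zpow_one]
      · rw [zpow_zero], Finset.prod_ite_eq' Finset.univ a u, if_pos (Finset.mem_univ a)]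
  rw [Finset.prod_congr rfl fun i _ => zpow_sub₀ (hu i) _ _, Finset.prod_div_distrib, h1, h1]

theorem coeff_sum_pow {ι : Type*} (A : Finset ι) (c : ι → K) (col : ι → ℕ) (w : ℕ) :
    (∑ a ∈ A, Polynomial.C (c a) * Polynomial.X ^ col a).coeff w =
      ∑ a ∈ A.filter (fun a => col a = w), c a := by
  classical
  rw [Polynomial.finsetSum_coeff, Finset.sum_filter]
  refine Finset.sum_congr rfl fun a _ => ?_
  rw [Polynomial.coeff_C_mul_X_pow]
  by_cases h : col a = w
  · rw [if_pos h, if_pos h.symm]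
  · rw [if_neg h, if_neg fun h0 => h h0.symm]

section split

variable [CharZero k] [IsFF k K] [IsAlgClosed k]

/-- **Splitting of an equation.** -/
theorem split_form {v : Fin r → Fin (n + 1) → K} {u : Fin r → K} (hu : ∀ j, u j ≠ 0)
    (S : Finset (Place k K)) {M s d e : ℕ} (hM0 : 0 < M) (hM : (s - 1) ^ 2 ≤ M)
    (hdvd : ∀ P ∉ S, ∀ j, (M : ℤ) ∣ P.ord (u j)) {F : MvPolynomial (Fin (n + 1)) κ}
    (hs : (GU v F).support.card ≤ s) (hF : F.IsHomogeneous e) (he : e ≤ d)
    (l : Place k K → ℤ) (hl : (Function.support l).Finite)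
    (hge : ∀ P α, Ge P (l P) (coeff α (GU v F))) {H : ℤ} (hH : -∑ᶠ P, l P ≤ H) (hH0 : 0 ≤ H)
    {B : ℤ} (hB : s ^ 2 * tri s * max (canDeg k K + (S.card + s * H)) 0 + H ≤ B)
    (h0 : aeval (fun i => ∑ j, v j i * u j) F = 0) (w : Fin r → ℕ)
    (hcol : ∀ a b : Fin r →₀ ℕ, ∑ j, a j = ∑ j, b j → ∑ j, a j ≤ d →
      hgt k (um u fun j => (a j : ℤ) - b j) ≤ B → ∑ j, a j * w j = ∑ j, b j * w j) :
    aeval (cur (fun j i => v j i * u j) w) F = 0 := by
  classical
  set A := (GU v F).support with hA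
  obtain ⟨T, hT1, hT2⟩ := bad_places hl hge A fun a ha => mem_support_iff.1 ha
  let g : A → K := fun α => coeff α.1 (GU v F) * ∏ j, u j ^ α.1 j
  have hg0 : ∀ α, g α ≠ 0 := fun α => mul_ne_zero (mem_support_iff.1 α.2)
    (Finset.prod_ne_zero_iff.2 fun j _ => pow_ne_zero _ (hu j))
  have hu0 : ∀ a : Fin r →₀ ℕ, ∏ j, u j ^ a j ≠ 0 := fun a =>
    Finset.prod_ne_zero_iff.2 fun j _ => pow_ne_zero _ (hu j)
  have hord : ∀ (P : Place k K) (a : Fin r →₀ ℕ), P.ord (∏ j, u j ^ a j) = ∑ j, a j * P.ord (u j) := by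
    intro P a
    have h1 : ∀ s : Finset (Fin r), P.ord (∏ j ∈ s, u j ^ a j) = ∑ j ∈ s, a j * P.ord (u j) := by
      intro s
      induction s using Finset.induction_on with
      | empty => rw [Finset.prod_empty, Finset.sum_empty, P.ord_one]
      | insert j s hj ih =>
        rw [Finset.prod_insert hj, Finset.sum_insert hj, P.ord_mul (pow_ne_zero _ (hu j))
          (Finset.prod_ne_zero_iff.2 fun j _ => pow_ne_zero _ (hu j)), ih, P.ord_pow]
    exact h1 Finset.univ
  let col : A → ℕ := fun α => ∑ j, α.1 j * w j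
  have hrel : ∑ α : A, g α = 0 := by
    rw [value_GU v hu] at h0
    have h1 : ∑ α ∈ A, coeff α (GU v F) * ∏ j, u j ^ α j = 0 := h0
    rw [← Finset.sum_coe_sort] at h1
    exact h1
  have hcard : Fintype.card A ≤ s := by
    rw [Fintype.card_coe]
    exact hs
  have hSc : (((S ∪ T).card : ℕ) : ℤ) ≤ S.card + s * H := by
    have h1 : (((S ∪ T).card : ℕ) : ℤ) ≤ S.card + T.card := by exact_mod_cast Finset.card_union_le _ _
    have h2 : (A.card : ℤ) * -∑ᶠ P, l P ≤ s * H := by
      have h3 : (A.card : ℤ) * -∑ᶠ P, l P ≤ A.card * H :=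
        mul_le_mul_of_nonneg_left hH (by positivity)
      have h4 : (A.card : ℤ) * H ≤ s * H :=
        mul_le_mul_of_nonneg_right (by exact_mod_cast hs) hH0
      exact h3.trans h4
    linarith
  have hχ : max (canDeg k K + ((S ∪ T).card : ℕ)) 0 ≤ max (canDeg k K + (S.card + s * H)) 0 :=
    max_le_max (by linarith) le_rfl
  have hcls := class_sum (k := k) g (fun α β => col α = col β)
    ⟨fun _ => rfl, fun h => h.symm, fun h h' => h.trans h'⟩ (by
      intro m e' he' c hc hrel' hlin i j
      have hm : m + 1 ≤ s := by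
        have := Fintype.card_le_of_injective e' he'
        rw [Fintype.card_fin] at this
        omega
      have h1 := height_ineq2 (S ∪ T) hM0 (m := m) ((Nat.pow_le_pow_left (by omega) 2).trans hM)
        (fun i => c i • g (e' i)) (fun i => smul_ne_zero (hc i) (hg0 _)) hrel' hlin (by
          intro P hP i j
          rw [Finset.mem_union, not_or] at hP
          rw [ord_smul P (hc i), ord_smul P (hc j)]
          change (M : ℤ) ∣ P.ord (coeff (e' i).1 (GU v F) * ∏ j, u j ^ (e' i).1 j) -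
            P.ord (coeff (e' j).1 (GU v F) * ∏ l, u l ^ (e' j).1 l)
          rw [P.ord_mul (mem_support_iff.1 (e' i).2) (hu0 _),
            P.ord_mul (mem_support_iff.1 (e' j).2) (hu0 _), hT2 P hP.2 _ (e' i).2,
            hT2 P hP.2 _ (e' j).2, hord, hord, add_sub_add_left_eq_sub]
          exact dvd_sub (Finset.dvd_sum fun l _ => (hdvd P hP.1 l).mul_left _)
            (Finset.dvd_sum fun l _ => (hdvd P hP.1 l).mul_left _)) i j
      have h2 : hgt k (g (e' i) / g (e' j)) = hgt k (c i • g (e' i) / c j • g (e' j)) := by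
        refine hgt_congr fun P => ?_
        rw [P.ord_div (hg0 _) (hg0 _), P.ord_div (smul_ne_zero (hc i) (hg0 _))
          (smul_ne_zero (hc j) (hg0 _)), ord_smul P (hc i), ord_smul P (hc j)]
      have h3 : ((m : ℤ) + 1) ^ 2 * tri m ≤ s ^ 2 * tri s := by
        have h4 : ((m : ℤ) + 1) ^ 2 ≤ s ^ 2 := by
          have : ((m + 1 : ℕ) : ℤ) ≤ s := by exact_mod_cast hm
          push_cast at this
          exact pow_le_pow_left₀ (by positivity) this 2
        exact mul_le_mul h4 (tri_mono (by omega)) (tri_nonneg m) (by positivity)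
      have h4 : hgt k (g (e' i) / g (e' j)) ≤
          s ^ 2 * tri s * max (canDeg k K + (S.card + s * H)) 0 := by
        rw [h2]
        exact h1.trans (mul_le_mul h3 hχ (le_max_right _ _)
          (mul_nonneg (by positivity) (tri_nonneg s)))
      -- the monomials
      have h5 : um u (fun l => ((e' i).1 l : ℤ) - (e' j).1 l) = (g (e' i) / g (e' j)) *
          (coeff (e' j).1 (GU v F) / coeff (e' i).1 (GU v F)) := by
        rw [um_sub hu]
        change _ = (coeff (e' i).1 (GU v F) * ∏ j, u j ^ (e' i).1 j) /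
          (coeff (e' j).1 (GU v F) * ∏ l, u l ^ (e' j).1 l) * _
        have a1 := mem_support_iff.1 (e' i).2
        have a2 := mem_support_iff.1 (e' j).2
        have a3 := hu0 (e' j).1
        field_simp
      have h6 : hgt k (coeff (e' j).1 (GU v F) / coeff (e' i).1 (GU v F)) ≤ H :=
        (hgt_ratio hl hge (mem_support_iff.1 (e' j).2) (mem_support_iff.1 (e' i).2)).trans hH
      refine hcol _ _ ?_ ?_ ?_
      · rw [GU_homog hF (e' i).2, GU_homog hF (e' j).2]
      · rw [GU_homog hF (e' i).2]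
        exact he
      · rw [h5]
        refine (hgt_mul (div_ne_zero (hg0 _) (hg0 _)) (div_ne_zero
          (mem_support_iff.1 (e' j).2) (mem_support_iff.1 (e' i).2))).trans ?_
        linarith)
    (Finset.univ.filter fun j => (fun _ : A => (1 : k)) j ≠ 0).card (fun _ => 1) le_rfl
    (by simpa using hrel)
  simp only [one_smul] at hcls
  rw [aeval_cur, supp_GU v hu]
  have h1 : ∑ α ∈ A, Polynomial.C (coeff α (GU (fun j i => v j i * u j) F)) *
      Polynomial.X ^ (∑ j, α j * w j) = ∑ α : A, Polynomial.C (g α) * Polynomial.X ^ col α := by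
    rw [← Finset.sum_coe_sort]
    refine Finset.sum_congr rfl fun α _ => ?_
    rw [coeff_GU]
  rw [h1]
  ext t
  rw [coeff_sum_pow, Polynomial.coeff_zero]
  by_cases ht : ∃ α0 : A, col α0 = t
  · obtain ⟨α0, hα0⟩ := ht
    convert hcls α0 using 1
    apply Finset.sum_congr
    · ext α
      simp only [Finset.mem_filter, Finset.mem_univ, true_and, ← hα0]
      exact ⟨fun h2 => h2.symm, fun h2 => h2.symm⟩
    · intro _ _
      rfl
  · push Not at ht
    rw [Finset.filter_eq_empty_iff.2 fun α _ => ht α]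
    rfl

end split

end Pool.Agent.Q33.FP
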