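import Pool.Agent.Q33.FP.Alpha

/-!
The dichotomy: the height is bounded, or a nonconstant curve with `r` terms passes through the point.
-/

set_option autoImplicit false

open FF MvPolynomial Pool.Agent.W603.LV
open Pool.Agent.H533R3.SL (cur GU aeval_cur)
open Pool.Agent.Q33.SP (diffs mem_diffs gen gen_spec dif)

namespace Pool.Agent.Q33.FP

variable {k κ K : Type} [Field k] [Field κ] [Field K] [Algebra k K] [Algebra κ K] {n r : ℕ}

variable (k K) in
/-- the height of the family of the coefficients -/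
noncomputable def cht {σ : Type} (F : MvPolynomial σ κ) : ℤ :=
  ht k fun m : σ →₀ ℕ => algebraMap κ K (coeff m F)

variable (k) in
/-- the height of the family of all coordinates of the vectors -/
noncomputable def vht (v : Fin r → Fin (n + 1) → K) : ℤ :=
  ht k fun p : Fin r × Fin (n + 1) => v p.1 p.2

theorem coeff_finite {σ : Type} (F : MvPolynomial σ κ) :
    {m : σ →₀ ℕ | algebraMap κ K (coeff m F) ≠ 0}.Finite := by
  refine F.support.finite_toSet.subset fun m hm => ?_
  rw [Finset.mem_coe, mem_support_iff]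
  intro h
  exact hm (by rw [h, map_zero])

theorem fin_finite {ι : Type} [Finite ι] (x : ι → K) : {c | x c ≠ 0}.Finite := Set.toFinite _

variable [CharZero k] [IsFF k K] [IsAlgClosed k]

/-- **Splitting of an equation**, with heights. -/
theorem split_ht {v : Fin r → Fin (n + 1) → K} {u : Fin r → K} (hu : ∀ j, u j ≠ 0)
    (S : Finset (Place k K)) {M s d e : ℕ} (hM0 : 0 < M) (hM : (s - 1) ^ 2 ≤ M)
    (hdvd : ∀ P ∉ S, ∀ j, (M : ℤ) ∣ P.ord (u j)) {F : MvPolynomial (Fin (n + 1)) κ}
    (hs : (GU v F).support.card ≤ s) (hF : F.IsHomogeneous e) (he : e ≤ d) {h : ℤ}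
    (hh : cht k K F ≤ h) {B : ℤ}
    (hB : s ^ 2 * tri s * max (canDeg k K + (S.card + s * (h + d * vht k v))) 0 +
      (h + d * vht k v) ≤ B)
    (h0 : aeval (fun i => ∑ j, v j i * u j) F = 0) (w : Fin r → ℕ)
    (hcol : ∀ a b : Fin r →₀ ℕ, ∑ j, a j = ∑ j, b j → ∑ j, a j ≤ d →
      hgt k (um u fun j => (a j : ℤ) - b j) ≤ B → ∑ j, a j * w j = ∑ j, b j * w j) :
    aeval (cur (fun j i => v j i * u j) w) F = 0 := by
  have hs1 := mo_supp (k := k) (coeff_finite (K := K) F)
  have hs2 := mo_supp (k := k) (fin_finite fun p : Fin r × Fin (n + 1) => v p.1 p.2)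
  have hs3 : (Function.support fun P : Place k K =>
      (e : ℤ) * mo P fun p : Fin r × Fin (n + 1) => v p.1 p.2).Finite := by
    refine hs2.subset fun P hP h0 => hP ?_
    simp only at h0 ⊢
    rw [h0, mul_zero]
  have hv0 : 0 ≤ vht k v := ht_nonneg (fin_finite _)
  have hsum : -∑ᶠ P : Place k K, (mo P (fun m : Fin (n + 1) →₀ ℕ => algebraMap κ K (coeff m F)) +
      (e : ℤ) * mo P fun p : Fin r × Fin (n + 1) => v p.1 p.2) = cht k K F + e * vht k v := by
    have h5 := mul_finsum' (fun P : Place k K => mo P fun p : Fin r × Fin (n + 1) => v p.1 p.2)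
      (e : ℤ) hs2
    rw [finsum_add_distrib hs1 hs3, ← h5, cht, vht, ht, ht]
    ring
  have hH : cht k K F + e * vht k v ≤ h + d * vht k v := by
    have h1 : (e : ℤ) * vht k v ≤ d * vht k v :=
      mul_le_mul_of_nonneg_right (by exact_mod_cast he) hv0
    linarith
  have hc0 : 0 ≤ cht k K F := ht_nonneg (coeff_finite F)
  refine split_form hu S hM0 hM hdvd hs hF he _
    ((hs1.union hs3).subset (Function.support_add _ _)) (fun P α => ?_) (H := h + d * vht k v)
    (hsum.trans_le hH) ?_ hB h0 w hcol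
  · exact GU_ge P hF (mo_ge P (coeff_finite F)) (fun j i => mo_ge P (fin_finite
      fun p : Fin r × Fin (n + 1) => v p.1 p.2) (j, i)) α
  · refine le_trans ?_ hH
    exact add_nonneg hc0 (mul_nonneg (by positivity) hv0)

/-- the curve is not constant -/
def NC {R : Type} [CommRing R] (c : Fin r → Fin (n + 1) → R) (w : Fin r → ℕ) : Prop :=
  ∃ i i', cur c w i * Polynomial.C (∑ j, c j i') ≠ cur c w i' * Polynomial.C (∑ j, c j i)

/-- the height of the point of a constant curve -/
theorem ht_const {v : Fin r → Fin (n + 1) → K} {u : Fin r → K} (hu : ∀ j, u j ≠ 0)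
    (w : Fin r → ℕ) (hx : ∃ i, ∑ j, v j i * u j ≠ 0) (hnc : ¬ NC (fun j i => v j i * u j) w)
    {b : ℤ} (hb : ∀ j l, w j = w l → hgt k (u j / u l) ≤ b) (hb0 : 0 ≤ b) :
    ht k (fun i => ∑ j, v j i * u j) ≤ vht k v + r * b := by
  classical
  unfold NC at hnc
  push Not at hnc
  set x : Fin (n + 1) → K := fun i => ∑ j, v j i * u j with hxd
  obtain ⟨i0, hi0⟩ := hx
  -- the parts of the sum
  let y : ℕ → Fin (n + 1) → K := fun t i => ∑ j ∈ Finset.univ.filter (fun j => w j = t), v j i * u j
  have hco : ∀ t i, (cur (fun j i => v j i * u j) w i).coeff t = y t i := by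
    intro t i
    unfold cur
    exact coeff_sum_pow Finset.univ _ w t
  have hprop : ∀ t i i', y t i * x i' = y t i' * x i := by
    intro t i i'
    have h1 := congrArg (fun q : Polynomial K => q.coeff t) (hnc i i')
    simp only [Polynomial.coeff_mul_C, hco] at h1
    exact h1
  obtain ⟨t, ht0⟩ : ∃ t, y t i0 ≠ 0 := by
    by_contra hcon
    push Not at hcon
    apply hi0
    have h1 : ∑ j, v j i0 * u j = ∑ t ∈ Finset.univ.image w, y t i0 :=
      (Finset.sum_fiberwise_of_maps_to (fun j _ => Finset.mem_image_of_mem w (Finset.mem_univ j))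
        fun j => v j i0 * u j).symm
    rw [h1]
    exact Finset.sum_eq_zero fun t _ => hcon t
  have hxi0 : x i0 ≠ 0 := hi0
  have hyx : ∀ i, y t i = (y t i0 / x i0) * x i := by
    intro i
    rw [div_mul_eq_mul_div, ← hprop t i i0, mul_div_cancel_right₀ _ hxi0]
  -- a member of the part
  obtain ⟨j0, hj0⟩ : ∃ j0, w j0 = t := by
    by_contra hcon
    push Not at hcon
    apply ht0
    change ∑ j ∈ Finset.univ.filter (fun j => w j = t), v j i0 * u j = 0
    rw [Finset.filter_eq_empty_iff.2 fun j _ => hcon j]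
    rfl
  let z : Fin (n + 1) → K := fun i =>
    ∑ j ∈ Finset.univ.filter (fun j => w j = t), v j i * (u j / u j0)
  have hzy : ∀ i, y t i = u j0 * z i := by
    intro i
    change ∑ j ∈ Finset.univ.filter (fun j => w j = t), v j i * u j =
      u j0 * ∑ j ∈ Finset.univ.filter (fun j => w j = t), v j i * (u j / u j0)
    rw [Finset.mul_sum]
    refine Finset.sum_congr rfl fun j _ => ?_
    have := hu j0
    field_simp
  have h1 : ht k x = ht k z := by
    rw [← ht_mul (fin_finite x) (div_ne_zero ht0 hxi0) hyx, ht_mul (fin_finite z) (hu j0) hzy]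
  have hz0 : ∃ i, z i ≠ 0 := by
    refine ⟨i0, fun h => ht0 ?_⟩
    rw [hzy, h, mul_zero]
  rw [h1]
  -- the local bound
  set J := Finset.univ.filter (fun j => w j = t) with hJ
  have hs2 := mo_supp (k := k) (fin_finite fun p : Fin r × Fin (n + 1) => v p.1 p.2)
  have hs4 : ∀ j, (Function.support fun P : Place k K => max (-P.ord (u j / u j0)) 0).Finite := by
    intro j
    refine (ord_supp (k := k) (u j / u j0)).subset fun P hP h0 => hP ?_
    simp only at h0 ⊢
    rw [h0]
    rfl
  have hs5 : (Function.support fun P : Place k K => ∑ j ∈ J, max (-P.ord (u j / u j0)) 0).Finite := by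
    refine (Set.Finite.biUnion J.finite_toSet fun j _ => hs4 j).subset fun P hP => ?_
    rw [Function.mem_support] at hP
    obtain ⟨j, hj, h2⟩ := Finset.exists_ne_zero_of_sum_ne_zero hP
    exact Set.mem_biUnion hj h2
  have h2 := ht_le (k := k) (fin_finite z) hz0 (fun P =>
    mo P (fun p : Fin r × Fin (n + 1) => v p.1 p.2) - ∑ j ∈ J, max (-P.ord (u j / u j0)) 0)
    ((hs2.union hs5).subset (Function.support_sub _ _)) (by
      intro P i
      refine Ge.sum _ _ fun j hj => ?_
      have h3 : Ge P (-∑ j ∈ J, max (-P.ord (u j / u j0)) 0) (u j / u j0) := by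
        right
        have h4 := Finset.single_le_sum (f := fun j => max (-P.ord (u j / u j0)) 0)
          (fun j _ => le_max_right _ _) hj
        have h5 := le_max_left (-P.ord (u j / u j0)) 0
        linarith
      exact Ge.mul (mo_ge P (fin_finite fun p : Fin r × Fin (n + 1) => v p.1 p.2) (j, i)) h3)
  rw [finsum_sub_distrib hs2 hs5, finsum_sum_comm J (fun (P : Place k K) j =>
    max (-P.ord (u j / u j0)) 0) (fun j _ => hs4 j)] at h2
  refine h2.trans ?_
  have h3 : ∑ j ∈ J, ∑ᶠ P : Place k K, max (-P.ord (u j / u j0)) 0 ≤ r * b := by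
    have h4 : ∀ j ∈ J, ∑ᶠ P : Place k K, max (-P.ord (u j / u j0)) 0 ≤ b := by
      intro j hj
      refine hb j j0 ?_
      rw [(Finset.mem_filter.1 hj).2, hj0]
    refine (Finset.sum_le_sum h4).trans ?_
    rw [Finset.sum_const, nsmul_eq_mul]
    refine mul_le_mul_of_nonneg_right ?_ hb0
    have h5 : J.card ≤ r := by
      have := Finset.card_le_univ J
      rwa [Fintype.card_fin] at this
    exact_mod_cast h5
  have h4 : vht k v = -∑ᶠ P : Place k K, mo P (fun p : Fin r × Fin (n + 1) => v p.1 p.2) := rfl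
  rw [h4]
  linarith

end Pool.Agent.Q33.FP
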