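import Pool.Agent.Q33.FP.NoCur
import Pool.Agent.W603.PV.Disc
import Pool.Agent.Helper386.D5V.Helper386_FF_Riemann

/-!
Heights in finite extensions of function fields.
-/

set_option autoImplicit false

open FF MvPolynomial Pool.Agent.W603.LV Pool.Agent.W603.PV

namespace Pool.Agent.Q33.FP

variable {k F L : Type} [Field k] [Field F] [Field L] [Algebra k F] [Algebra k L] [Algebra F L]
  [IsScalarTower k F L] [IsAlgClosed k] [CharZero k] [IsFF k F] [IsFF k L]

omit [Algebra k L] [Algebra F L] [IsScalarTower k F L] [IsFF k L] [Field L] in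
/-- a function with exactly one pole -/
theorem exists_pole (v : Place k F) : ∃ x : F, v.ord x < 0 ∧ ∀ w : Place k F, w ≠ v → 0 ≤ w.ord x := by
  classical
  obtain ⟨γ, N0, h1, -⟩ := riemann k F
  set n : ℕ := (γ + 2).toNat with hn
  have h2 := h1 (Finsupp.single v (n : ℤ))
  rw [ddeg_single, deg_one, Nat.cast_one, mul_one] at h2
  have h3 : 2 ≤ ell (Finsupp.single v (n : ℤ)) := by omega
  obtain ⟨f, hf, hfc⟩ : ∃ f ∈ LL (Finsupp.single v (n : ℤ)), ∀ c : k, f ≠ algebraMap k F c := by
    by_contra hcon
    push Not at hcon
    have h4 : LL (Finsupp.single v (n : ℤ)) ≤ Submodule.span k {(1 : F)} := by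
      intro f hf
      obtain ⟨c, hc⟩ := hcon f hf
      rw [Submodule.mem_span_singleton]
      exact ⟨c, by rw [hc, Algebra.smul_def, mul_one]⟩
    have h5 := Submodule.finrank_mono h4
    have h6 : Module.finrank k (Submodule.span k {(1 : F)}) = 1 := finrank_span_singleton one_ne_zero
    unfold ell at h3
    omega
  have hf0 : f ≠ 0 := fun h => hfc 0 (by rw [h, map_zero])
  have h7 := hf.resolve_left hf0
  have h8 : ∀ w : Place k F, w ≠ v → 0 ≤ w.ord f := by
    intro w hw
    have := h7 w
    rw [Finsupp.single_apply, if_neg (Ne.symm hw)] at this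
    omega
  refine ⟨f, ?_, h8⟩
  by_contra hcon
  push Not at hcon
  obtain ⟨c, hc⟩ := const_of_hgt (k := k) (f := f) (by
    unfold hgt
    rw [finsum_congr (g := fun _ => (0 : ℤ)) fun P => ?_, finsum_zero]
    have h9 : 0 ≤ P.ord f := by
      by_cases hP : P = v
      · rw [hP]
        exact hcon
      · exact h8 P hP
    omega)
  exact hfc c hc

theorem sum_ram [FiniteDimensional F L] (v : Place k F) :
    ∑ P ∈ (finite_over (L := L) v).toFinset, (ram F P : ℤ) = Module.finrank F L := by
  classical
  obtain ⟨x, hx, hx'⟩ := exists_pole v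
  have h1 : hgt k x = -v.ord x := by
    unfold hgt
    rw [finsum_eq_single _ v]
    · omega
    · intro w hw
      have := hx' w hw
      omega
  have h2 : hgt k (algebraMap F L x) =
      ∑ P ∈ (finite_over (L := L) v).toFinset, (ram F P : ℤ) * -v.ord x := by
    unfold hgt
    rw [finsum_eq_sum_of_support_subset (s := (finite_over (L := L) v).toFinset)]
    · refine Finset.sum_congr rfl fun P hP => ?_
      rw [Set.Finite.mem_toFinset] at hP
      have hP' : under F P = v := hP
      rw [ord_under, hP']
      have h0 : (0 : ℤ) ≤ ram F P := by positivity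
      rw [max_eq_left]
      · ring
      · nlinarith
    · intro P hP
      rw [Finset.mem_coe, Set.Finite.mem_toFinset]
      by_contra hne
      apply hP
      have h3 := hx' (under F P) hne
      have h0 : (0 : ℤ) ≤ ram F P := by positivity
      change max (-P.ord (algebraMap F L x)) 0 = 0
      rw [ord_under]
      exact max_eq_right (by nlinarith)
  have h3 := hgt_algebraMap (k := k) (L := L) x
  rw [h1, h2, ← Finset.sum_mul] at h3
  exact mul_right_cancel₀ (by omega : -v.ord x ≠ 0) h3

theorem mo_ext {ι : Type} (P : Place k L) {x : ι → F} (hx : {c | x c ≠ 0}.Finite) :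
    mo P (fun c => algebraMap F L (x c)) = ram F P * mo (under F P) x := by
  have hx' : {c | algebraMap F L (x c) ≠ 0}.Finite :=
    hx.subset fun c hc h => hc (by rw [h, map_zero])
  have h0 : (0 : ℤ) ≤ ram F P := by positivity
  by_cases hne : ∃ c, x c ≠ 0
  · have hne' : ∃ c, algebraMap F L (x c) ≠ 0 := by
      obtain ⟨c, hc⟩ := hne
      exact ⟨c, (map_ne_zero _).2 hc⟩
    apply le_antisymm
    · obtain ⟨c, hc, he⟩ := exists_mo (under F P) hx hne
      rw [← he, ← ord_under]
      exact (mo_ge P hx' c).resolve_left ((map_ne_zero _).2 hc)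
    · obtain ⟨c, hc, he⟩ := exists_mo P hx' hne'
      rw [← he, ord_under]
      exact mul_le_mul_of_nonneg_left
        ((mo_ge (under F P) hx c).resolve_left fun h => hc (by rw [h, map_zero])) h0
  · push Not at hne
    rw [mo_zero P (fun c => by rw [hne c, map_zero]), mo_zero _ hne, mul_zero]

/-- **Heights in extensions.** -/
theorem ht_ext [FiniteDimensional F L] {ι : Type} {x : ι → F} (hx : {c | x c ≠ 0}.Finite) :
    ht k (fun c => algebraMap F L (x c)) = Module.finrank F L * ht k x := by
  classical
  have hV := mo_supp (k := k) hx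
  set V := hV.toFinset with hVd
  have hfin := finite_over_set (L := L) hV
  unfold ht
  rw [finsum_congr fun P : Place k L => mo_ext P hx,
    finsum_eq_sum_of_support_subset (s := hfin.toFinset),
    finsum_eq_sum_of_support_subset (s := V), mul_neg, neg_inj, Finset.mul_sum,
    ← Finset.sum_fiberwise_of_maps_to (t := V) (g := fun P => under F P)]
  · refine Finset.sum_congr rfl fun v hv => ?_
    rw [← sum_ram (L := L) v, Finset.sum_mul]
    refine Finset.sum_congr ?_ fun P hP => ?_
    · ext P
      rw [Finset.mem_filter, Set.Finite.mem_toFinset, Set.Finite.mem_toFinset, Set.mem_ofPred_eq,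
        Set.mem_ofPred_eq]
      constructor
      · exact fun h => h.2
      · intro h
        refine ⟨?_, h⟩
        rw [h]
        exact (Set.Finite.mem_toFinset hV).1 hv
    · rw [Set.Finite.mem_toFinset] at hP
      have hP' : under F P = v := hP
      rw [hP']
  · intro P hP
    exact (Set.Finite.mem_toFinset hV).2 ((Set.Finite.mem_toFinset hfin).1 hP)
  · rw [hVd, Set.Finite.coe_toFinset]
  · intro P hP
    rw [Set.Finite.coe_toFinset]
    change (under F P) ∈ Function.support (fun v : Place k F => mo v x)
    intro h0
    apply hP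
    change (ram F P : ℤ) * mo (under F P) x = 0
    have h1 : mo (under F P) x = 0 := h0
    rw [h1, mul_zero]

theorem cht_ext [FiniteDimensional F L] {σ : Type} (f : MvPolynomial σ F) :
    cht k L f = Module.finrank F L * cht k F f := ht_ext (coeff_finite f)

end Pool.Agent.Q33.FP
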