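import Pool.Agent.W603.LV.Blk2

/-!
Heights of families of functions on a curve.
-/

set_option autoImplicit false

open FF Pool.Agent.W603.LV

namespace Pool.Agent.Q33.FP

variable {k K : Type*} [Field k] [Field K] [Algebra k K] {ι : Type*}

/-- The minimum of the orders at `P` of the nonzero members of the family. -/
noncomputable def mo (P : Place k K) (x : ι → K) : ℤ := ⨅ c : {c // x c ≠ 0}, P.ord (x c)

variable (k) in
/-- The height of a family `x` of functions: minus the sum over all places of the minimum of the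
orders of the nonzero members. If the family is a point of projective space, that is a map from the
curve to projective space, this is the degree of the map. -/
noncomputable def ht (x : ι → K) : ℤ := -∑ᶠ P : Place k K, mo P x

theorem mo_zero (P : Place k K) {x : ι → K} (h : ∀ c, x c = 0) : mo P x = 0 := by
  have : IsEmpty {c // x c ≠ 0} := ⟨fun c => c.2 (h c)⟩
  unfold mo
  rw [iInf, Set.range_eq_empty, Int.csInf_empty]

theorem ht_zero {x : ι → K} (h : ∀ c, x c = 0) : ht k x = 0 := by
  unfold ht
  rw [finsum_congr fun P : Place k K => mo_zero P h, finsum_zero, neg_zero]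

theorem mo_ge (P : Place k K) {x : ι → K} (hx : {c | x c ≠ 0}.Finite) (c : ι) :
    Ge P (mo P x) (x c) := by
  by_cases h : x c = 0
  · exact Or.inl h
  · right
    have : Finite {c // x c ≠ 0} := hx
    exact ciInf_le (Set.finite_range fun c : {c // x c ≠ 0} => P.ord (x c)).bddBelow
      (⟨c, h⟩ : {c // x c ≠ 0})

theorem exists_mo (P : Place k K) {x : ι → K} (hx : {c | x c ≠ 0}.Finite) (h0 : ∃ c, x c ≠ 0) :
    ∃ c, x c ≠ 0 ∧ P.ord (x c) = mo P x := by
  have : Finite {c // x c ≠ 0} := hx
  obtain ⟨c0, hc0⟩ := h0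
  have : Nonempty {c // x c ≠ 0} := ⟨⟨c0, hc0⟩⟩
  obtain ⟨c, hc⟩ := exists_eq_ciInf_of_finite (f := fun c : {c // x c ≠ 0} => P.ord (x c))
  exact ⟨c, c.2, hc⟩

variable [CharZero k] [IsFF k K]

theorem ord_supp (f : K) : (Function.support fun P : Place k K => P.ord f).Finite :=
  finite_support (k := k) f

theorem mo_supp {x : ι → K} (hx : {c | x c ≠ 0}.Finite) :
    (Function.support fun P : Place k K => mo P x).Finite := by
  classical
  refine (hx.biUnion fun c _ => ord_supp (k := k) (x c)).subset ?_
  intro P hP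
  by_cases h0 : ∃ c, x c ≠ 0
  · obtain ⟨c, hc, he⟩ := exists_mo P hx h0
    rw [Set.mem_iUnion₂]
    refine ⟨c, hc, ?_⟩
    rw [Function.mem_support]
    rw [he]
    exact hP
  · push Not at h0
    exact absurd (mo_zero P h0) hP

/-- an upper bound for the height -/
theorem ht_le {x : ι → K} (hx : {c | x c ≠ 0}.Finite) (h0 : ∃ c, x c ≠ 0) (l : Place k K → ℤ)
    (hl : (Function.support l).Finite) (h : ∀ P c, Ge P (l P) (x c)) :
    ht k x ≤ -∑ᶠ P, l P := by
  unfold ht
  rw [neg_le_neg_iff]
  refine finsum_le_finsum' hl (mo_supp hx) fun P => ?_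
  obtain ⟨c, hc, he⟩ := exists_mo P hx h0
  rw [← he]
  exact (h P c).resolve_left hc

variable [IsAlgClosed k]

theorem ht_nonneg {x : ι → K} (hx : {c | x c ≠ 0}.Finite) : 0 ≤ ht k x := by
  by_cases h0 : ∃ c, x c ≠ 0
  · obtain ⟨c, hc⟩ := h0
    unfold ht
    rw [neg_nonneg, ← sum_ord (k := k) (x c)]
    exact finsum_le_finsum' (mo_supp hx) (ord_supp _) fun P => (mo_ge P hx c).resolve_left hc
  · push Not at h0
    rw [ht_zero h0]

theorem ht_mul_le {x y : ι → K} (hx : {c | x c ≠ 0}.Finite) {a : K} (ha : a ≠ 0)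
    (h : ∀ c, y c = a * x c) : ht k y ≤ ht k x := by
  by_cases h0 : ∃ c, x c ≠ 0
  · have hy : {c | y c ≠ 0}.Finite := hx.subset fun c hc h1 => hc (by rw [h, h1, mul_zero])
    have h0' : ∃ c, y c ≠ 0 := by
      obtain ⟨c, hc⟩ := h0
      exact ⟨c, by rw [h]; exact mul_ne_zero ha hc⟩
    have h1 := ht_le (k := k) hy h0' (fun P => P.ord a + mo P x)
      (((ord_supp a).union (mo_supp hx)).subset (Function.support_add _ _)) (by
        intro P c
        rw [h]
        exact Ge.mul (Or.inr le_rfl : Ge P (P.ord a) a) (mo_ge P hx c))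
    rw [finsum_add_distrib (ord_supp a) (mo_supp hx), sum_ord, zero_add] at h1
    exact h1
  · push Not at h0
    rw [ht_zero h0, ht_zero fun c => by rw [h, h0 c, mul_zero]]

/-- the height of a point of projective space -/
theorem ht_mul {x y : ι → K} (hx : {c | x c ≠ 0}.Finite) {a : K} (ha : a ≠ 0)
    (h : ∀ c, y c = a * x c) : ht k y = ht k x := by
  refine le_antisymm (ht_mul_le hx ha h) ?_
  have hy : {c | y c ≠ 0}.Finite := hx.subset fun c hc h1 => hc (by rw [h, h1, mul_zero])
  exact ht_mul_le hy (inv_ne_zero ha) fun c => by rw [h, inv_mul_cancel_left₀ ha]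

section coeff

variable {c : ι → K} {l : Place k K → ℤ} (hl : (Function.support l).Finite)
  (h : ∀ P a, Ge P (l P) (c a))

include hl h

omit [IsAlgClosed k] in
theorem excess_supp (a : ι) : (Function.support fun P : Place k K => P.ord (c a) - l P).Finite :=
  ((ord_supp (c a)).union hl).subset (Function.support_sub _ _)

theorem excess_sum (a : ι) : ∑ᶠ P, (P.ord (c a) - l P) = -∑ᶠ P, l P := by
  rw [finsum_sub_distrib (ord_supp (c a)) hl, sum_ord, zero_sub]

theorem hgt_ratio {a b : ι} (ha : c a ≠ 0) (hb : c b ≠ 0) : hgt k (c a / c b) ≤ -∑ᶠ P, l P := by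
  rw [← excess_sum hl h b]
  unfold hgt
  have h1 : (Function.support fun P : Place k K => max (-P.ord (c a / c b)) 0).Finite := by
    refine (ord_supp (k := k) (c a / c b)).subset fun P hP h0 => hP ?_
    simp only at h0 ⊢
    rw [h0]
    rfl
  refine finsum_le_finsum' h1 (excess_supp hl h b) fun P => ?_
  change max (-P.ord (c a / c b)) 0 ≤ P.ord (c b) - l P
  rw [P.ord_div ha hb]
  have h2 := (h P a).resolve_left ha
  have h3 := (h P b).resolve_left hb
  omega

/-- the number of places where some member has a larger order -/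
theorem bad_places (A : Finset ι) (hA : ∀ a ∈ A, c a ≠ 0) :
    ∃ T : Finset (Place k K), (T.card : ℤ) ≤ A.card * -∑ᶠ P, l P ∧
      ∀ P ∉ T, ∀ a ∈ A, P.ord (c a) = l P := by
  classical
  refine ⟨A.biUnion fun a => (excess_supp hl h a).toFinset, ?_, ?_⟩
  · have h1 : ((A.biUnion fun a => (excess_supp hl h a).toFinset).card : ℤ) ≤
        ∑ a ∈ A, ((excess_supp hl h a).toFinset.card : ℤ) := by
      exact_mod_cast Finset.card_biUnion_le
    refine h1.trans ?_
    rw [← nsmul_eq_mul, ← Finset.sum_const]
    refine Finset.sum_le_sum fun a ha => ?_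
    rw [← excess_sum hl h a, finsum_eq_sum_of_support_subset (s := (excess_supp hl h a).toFinset) _
      (by rw [Set.Finite.coe_toFinset]), Finset.cast_card]
    refine Finset.sum_le_sum fun P hP => ?_
    rw [Set.Finite.mem_toFinset, Function.mem_support] at hP
    have h2 := (h P a).resolve_left (hA a ha)
    omega
  · intro P hP a ha
    by_contra hne
    apply hP
    rw [Finset.mem_biUnion]
    refine ⟨a, ha, ?_⟩
    rw [Set.Finite.mem_toFinset, Function.mem_support]
    omega

end coeff

end Pool.Agent.Q33.FP
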