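import Pool.Agent.Q33.FP.Dich

/-!
The dichotomy for points over function fields with few terms.
-/

set_option autoImplicit false

open FF MvPolynomial Pool.Agent.W603.LV
open Pool.Agent.H533R3.SL (cur GU aeval_cur)
open Pool.Agent.Q33.SP (diffs mem_diffs gen gen_spec dif)

namespace Pool.Agent.Q33.FP

/-- the lower bound for the modulus -/
def modF (r d : ℕ) : ℕ := ((r + d - 1).choose d - 1) ^ 2

/-- the point `∑ u j v j` -/
def pt {R : Type} [CommRing R] {n r : ℕ} (v : Fin r → Fin (n + 1) → R) (u : Fin r → R) :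
    Fin (n + 1) → R := fun i => ∑ j, v j i * u j

/-- `u 0, …, u (r - 1)` are nonzero functions whose orders are multiples of `M` at all places
outside `S`. -/
def Units {k K : Type} [Field k] [Field K] [Algebra k K] {r : ℕ} (S : Finset (Place k K)) (M : ℕ)
    (u : Fin r → K) : Prop := (∀ j, u j ≠ 0) ∧ ∀ P ∉ S, ∀ j, (M : ℤ) ∣ P.ord (u j)

/-- **Dichotomy.** -/
theorem dichotomy (r d : ℕ) : ∃ A : ℕ, ∀ {k κ K : Type} [Field k] [Field κ] [Field K] [Algebra k K]
    [Algebra κ K] [CharZero k] [IsFF k K] [IsAlgClosed k] {n : ℕ}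
    (FF : Set (MvPolynomial (Fin (n + 1)) κ)) (_ : ∀ F ∈ FF, ∃ e, e ≤ d ∧ F.IsHomogeneous e)
    {h : ℤ} (_ : 0 ≤ h) (_ : ∀ F ∈ FF, cht k K F ≤ h) (v : Fin r → Fin (n + 1) → K)
    (u : Fin r → K) (S : Finset (Place k K)) {M : ℕ} (_ : 0 < M) (_ : modF r d ≤ M)
    (_ : Units S M u) (_ : pt v u ≠ 0) (_ : ∀ F ∈ FF, aeval (pt v u) F = 0),
    (∃ w : Fin r → ℕ, (∀ F ∈ FF, aeval (cur (fun j i => v j i * u j) w) F = 0) ∧
      NC (fun j i => v j i * u j) w) ∨
    ht k (pt v u) ≤ A * (max (canDeg k K + S.card) 0 + h + vht k v) := by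
  classical
  obtain ⟨α, hα⟩ := exists_alpha r d
  set s : ℕ := (r + d - 1).choose d with hsd
  set c : ℕ := s ^ 2 * (tri s).toNat with hc
  refine ⟨1 + r * α * (c * s + 1) * (d + 1) + r * α * c, ?_⟩
  intro k κ K _ _ _ _ _ _ _ _ n FF hFF h hh0 hh v u S M hM0 hM hu hx hon
  have hr : 0 < r := by
    rcases Nat.eq_zero_or_pos r with h0 | h0
    · exfalso
      subst h0
      apply hx
      funext i
      unfold pt
      simp
    · exact h0
  have hcz : (s : ℤ) ^ 2 * tri s = c := by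
    rw [hc]
    push_cast
    rw [Int.toNat_of_nonneg (tri_nonneg s)]
  have hv0 : 0 ≤ vht k v := ht_nonneg (fin_finite _)
  set χ : ℤ := max (canDeg k K + S.card) 0 with hχ
  have hχ0 : 0 ≤ χ := le_max_right _ _
  set h' : ℤ := h + d * vht k v with hh'
  have hh'0 : 0 ≤ h' := add_nonneg hh0 (mul_nonneg (by positivity) hv0)
  set B : ℤ := s ^ 2 * tri s * max (canDeg k K + (S.card + s * h')) 0 + h' with hB
  have hB0 : 0 ≤ B := add_nonneg (mul_nonneg (mul_nonneg (by positivity) (tri_nonneg s))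
    (le_max_right _ _)) hh'0
  have hBle : B ≤ c * (χ + s * h') + h' := by
    rw [hB, hcz]
    have h1 : max (canDeg k K + (S.card + s * h')) 0 ≤ χ + s * h' := by
      refine max_le ?_ (add_nonneg hχ0 (mul_nonneg (by positivity) hh'0))
      have := le_max_left (canDeg k K + (S.card : ℤ)) 0
      linarith
    have h2 := mul_le_mul_of_nonneg_left h1 (by positivity : (0 : ℤ) ≤ c)
    linarith
  let A : Finset (Fin r → ℤ) := (diffs r d).filter fun l => hgt k (um u l) ≤ B
  have hA : A ⊆ diffs r d := Finset.filter_subset _ _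
  have hspec := gen_spec A (diffs_sum hA)
  have hcol : ∀ a b : Fin r →₀ ℕ, ∑ j, a j = ∑ j, b j → ∑ j, a j ≤ d →
      hgt k (um u fun j => (a j : ℤ) - b j) ≤ B → ∑ j, a j * gen A j = ∑ j, b j * gen A j := by
    intro a b hab ha hl
    have h1 : (fun j => (a j : ℤ) - b j) ∈ A := Finset.mem_filter.2 ⟨mem_diffs hab ha, hl⟩
    have h2 := hspec.1 _ h1
    have h3 : ∑ j, ((a j : ℤ) * gen A j) = ∑ j, ((b j : ℤ) * gen A j) := by
      rw [← sub_eq_zero, ← Finset.sum_sub_distrib, ← h2]
      refine Finset.sum_congr rfl fun j _ => ?_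
      ring
    exact_mod_cast h3
  have hcurve : ∀ F ∈ FF, aeval (cur (fun j i => v j i * u j) (gen A)) F = 0 := by
    intro F hF
    obtain ⟨e, he, hFe⟩ := hFF F hF
    exact split_ht hu.1 S hM0 hM hu.2 ((GU_card hFe).trans (choose_mono hr he)) hFe he (hh F hF)
      le_rfl (hon F hF) _ hcol
  by_cases hnc : NC (fun j i => v j i * u j) (gen A)
  · exact Or.inl ⟨_, hcurve, hnc⟩
  · right
    obtain ⟨i0, hi0⟩ := Function.ne_iff.1 hx
    have h1 := ht_const (k := k) hu.1 (gen A) ⟨i0, hi0⟩ hnc (b := α * B) (by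
      intro j l hjl
      have h2 := hα A hA j l hjl _ (sn_hgt hu.1) B hB0 fun a ha => (Finset.mem_filter.1 ha).2
      rw [um_dif hu.1] at h2
      exact h2) (mul_nonneg (by positivity) hB0)
    change ht k (pt v u) ≤ _ at h1
    refine h1.trans ?_
    have h2 : (r : ℤ) * (α * B) ≤ r * α * (c * (χ + s * h') + h') := by
      rw [← mul_assoc]
      exact mul_le_mul_of_nonneg_left hBle (by positivity)
    have h3 : vht k v + r * α * (c * (χ + s * h') + h') ≤
        ((1 + r * α * (c * s + 1) * (d + 1) + r * α * c : ℕ) : ℤ) * (χ + h + vht k v) := by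
      rw [hh']
      push_cast
      have e1 : (0 : ℤ) ≤ r * α * c * (h + vht k v) :=
        mul_nonneg (by positivity) (add_nonneg hh0 hv0)
      have e2 : (0 : ℤ) ≤ r * α * (c * s + 1) * (d + 1) * χ := mul_nonneg (by positivity) hχ0
      have e3 : (0 : ℤ) ≤ r * α * (c * s + 1) * (d * h + vht k v) :=
        mul_nonneg (by positivity) (add_nonneg (mul_nonneg (by positivity) hh0) hv0)
      nlinarith
    linarith

end Pool.Agent.Q33.FP
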