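import Pool.Agent.Q33.FP.Main

/-!
Curves over extensions of an algebraically closed field.
-/

set_option autoImplicit false

open FF MvPolynomial Pool.Agent.W603.LV
open Pool.Agent.H533R3.SL (cur GU aeval_cur)

namespace Pool.Agent.Q33.FP

variable {n r : ℕ}

/-- specialisation -/
theorem nullst {k : Type} [Field k] [IsAlgClosed k] {σ : Type} [Finite σ] {L : Type} [Field L]
    [Algebra k L] (c : σ → L) (f : MvPolynomial σ k) (hf : aeval c f ≠ 0) :
    ∃ x : σ → k, (∀ p : MvPolynomial σ k, aeval c p = 0 → aeval x p = 0) ∧ aeval x f ≠ 0 := by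
  let I : Ideal (MvPolynomial σ k) := RingHom.ker (aeval c : MvPolynomial σ k →ₐ[k] L)
  have hI : I.IsPrime := RingHom.ker_isPrime _
  have h1 : f ∉ vanishingIdeal k (zeroLocus k I) := by
    rw [vanishingIdeal_zeroLocus_eq_radical, hI.radical]
    exact hf
  rw [mem_vanishingIdeal_iff] at h1
  push Not at h1
  obtain ⟨x, hx, hfx⟩ := h1
  exact ⟨x, fun p hp => hx p hp, hfx⟩

theorem cur_map {k R R' : Type} [CommRing k] [CommRing R] [CommRing R'] [Algebra k R] [Algebra k R']
    (s : R →ₐ[k] R') (c : Fin r → Fin (n + 1) → R) (w : Fin r → ℕ) (i : Fin (n + 1)) :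
    Polynomial.mapAlgHom s (cur c w i) = cur (fun j i => s (c j i)) w i := by
  unfold cur
  rw [map_sum]
  refine Finset.sum_congr rfl fun j _ => ?_
  rw [map_mul, map_pow]
  congr 1
  · exact Polynomial.map_C _
  · congr 1
    exact Polynomial.map_X _

theorem aeval_map {k R R' : Type} [CommRing k] [CommRing R] [CommRing R'] [Algebra k R]
    [Algebra k R'] (s : R →ₐ[k] R') (c : Fin r → Fin (n + 1) → R) (w : Fin r → ℕ)
    (F : MvPolynomial (Fin (n + 1)) k) :
    Polynomial.mapAlgHom s (aeval (cur c w) F) = aeval (cur (fun j i => s (c j i)) w) F := by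
  have h1 := congrArg (fun f => f F) (MvPolynomial.comp_aeval (R := k) (cur c w)
    (Polynomial.mapAlgHom s))
  refine Eq.trans h1 ?_
  change aeval (fun i => Polynomial.mapAlgHom s (cur c w i)) F = _
  congr 2
  funext i
  exact cur_map s c w i

theorem aeval_sum_map {k R R' : Type} [CommRing k] [CommRing R] [CommRing R'] [Algebra k R]
    [Algebra k R'] (s : R →ₐ[k] R') (c : Fin r → Fin (n + 1) → R)
    (F : MvPolynomial (Fin (n + 1)) k) :
    s (aeval (fun i => ∑ j, c j i) F) = aeval (fun i => ∑ j, s (c j i)) F := by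
  have h1 := congrArg (fun f => f F) (MvPolynomial.comp_aeval (R := k) (fun i => ∑ j, c j i) s)
  refine Eq.trans h1 ?_
  congr 2
  funext i
  exact map_sum s _ _

/-- nonconstant curves over an extension specialise to nonconstant curves -/
theorem curve_spec {k : Type} [Field k] [IsAlgClosed k] (FF : Set (MvPolynomial (Fin (n + 1)) k))
    (G : MvPolynomial (Fin (n + 1)) k) (w : Fin r → ℕ) {L : Type} [Field L] [Algebra k L]
    (c : Fin r → Fin (n + 1) → L) (hz : ∀ F ∈ FF, aeval (cur c w) F = 0) (hnc : NC c w)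
    (hG : aeval (fun i => ∑ j, c j i) G ≠ 0) :
    ∃ b : Fin r → Fin (n + 1) → k, (∀ F ∈ FF, aeval (cur b w) F = 0) ∧ NC b w ∧
      aeval (fun i => ∑ j, b j i) G ≠ 0 ∧ ∀ p : MvPolynomial (Fin r × Fin (n + 1)) k,
        aeval (fun q : Fin r × Fin (n + 1) => c q.1 q.2) p = 0 →
        aeval (fun q : Fin r × Fin (n + 1) => b q.1 q.2) p = 0 := by
  classical
  obtain ⟨i, i', hii⟩ := hnc
  let R : Type := MvPolynomial (Fin r × Fin (n + 1)) k
  let ct : Fin r → Fin (n + 1) → R := fun j i => MvPolynomial.X (j, i)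
  have hct : ∀ {L' : Type} [Field L'] [Algebra k L'] (x : Fin r × Fin (n + 1) → L') (j i),
      (aeval x : R →ₐ[k] L') (ct j i) = x (j, i) := by
    intro L' _ _ x j i
    exact aeval_X x (j, i)
  have hcur : ∀ {L' : Type} [Field L'] [Algebra k L'] (x : Fin r × Fin (n + 1) → L') (i),
      Polynomial.mapAlgHom (aeval x : R →ₐ[k] L') (cur ct w i) = cur (fun j i => x (j, i)) w i := by
    intro L' _ _ x i
    rw [cur_map]
    congr 1
    funext j i
    exact hct x j i
  -- the nonconstancy
  have hne : ∃ t, (cur c w i * Polynomial.C (∑ j, c j i') -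
      cur c w i' * Polynomial.C (∑ j, c j i)).coeff t ≠ 0 := by
    by_contra hcon
    push Not at hcon
    apply hii
    rw [← sub_eq_zero]
    ext t
    rw [hcon t, Polynomial.coeff_zero]
  obtain ⟨t, ht⟩ := hne
  let N : R := (cur ct w i * Polynomial.C (∑ j, ct j i') -
    cur ct w i' * Polynomial.C (∑ j, ct j i)).coeff t
  have hN : ∀ {L' : Type} [Field L'] [Algebra k L'] (x : Fin r × Fin (n + 1) → L'),
      (aeval x : R →ₐ[k] L') N = (cur (fun j i => x (j, i)) w i * Polynomial.C (∑ j, x (j, i')) -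
        cur (fun j i => x (j, i)) w i' * Polynomial.C (∑ j, x (j, i))).coeff t := by
    intro L' _ _ x
    have h1 : (aeval x : R →ₐ[k] L') N = (Polynomial.mapAlgHom (aeval x : R →ₐ[k] L')
        (cur ct w i * Polynomial.C (∑ j, ct j i') -
        cur ct w i' * Polynomial.C (∑ j, ct j i))).coeff t := by
      rw [Polynomial.coe_mapAlgHom, Polynomial.coeff_map]
      rfl
    have h2 : ∀ i, Polynomial.mapAlgHom (aeval x : R →ₐ[k] L') (Polynomial.C (∑ j, ct j i)) =
        Polynomial.C (∑ j, x (j, i)) := by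
      intro i
      have h3 : Polynomial.mapAlgHom (aeval x : R →ₐ[k] L') (Polynomial.C (∑ j, ct j i)) =
        Polynomial.C ((aeval x : R →ₐ[k] L') (∑ j, ct j i)) := Polynomial.map_C _
      rw [h3, map_sum]
      congr 1
      exact Finset.sum_congr rfl fun j _ => hct x j i
    rw [h1, map_sub, map_mul, map_mul, hcur, hcur, h2, h2]
  let g : R := aeval (fun i => ∑ j, ct j i) G
  have hg : ∀ {L' : Type} [Field L'] [Algebra k L'] (x : Fin r × Fin (n + 1) → L'),
      (aeval x : R →ₐ[k] L') g = aeval (fun i => ∑ j, x (j, i)) G := by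
    intro L' _ _ x
    rw [aeval_sum_map]
    congr 2
    funext i
    exact Finset.sum_congr rfl fun j _ => hct x j i
  obtain ⟨b, hb1, hb2⟩ := nullst (fun q : Fin r × Fin (n + 1) => c q.1 q.2) (N * g) (by
    rw [map_mul, hN, hg]
    exact mul_ne_zero ht hG)
  rw [map_mul, hN, hg] at hb2
  refine ⟨fun j i => b (j, i), fun F hF => ?_, ⟨i, i', fun h0 => ?_⟩,
    right_ne_zero_of_mul hb2, fun p hp => hb1 p hp⟩
  · ext t
    have h1 : ∀ {L' : Type} [Field L'] [Algebra k L'] (x : Fin r × Fin (n + 1) → L'),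
        (aeval x : R →ₐ[k] L') ((aeval (cur ct w) F).coeff t) =
          (aeval (cur (fun j i => x (j, i)) w) F).coeff t := by
      intro L' _ _ x
      have h2 := aeval_map (aeval x : R →ₐ[k] L') ct w F
      have h3 : (fun j i => (aeval x : R →ₐ[k] L') (ct j i)) = fun j i => x (j, i) := by
        funext j i
        exact hct x j i
      rw [h3] at h2
      rw [← h2, Polynomial.coe_mapAlgHom, Polynomial.coeff_map]
      rfl
    rw [← h1 b, Polynomial.coeff_zero]
    apply hb1
    rw [h1]
    change (aeval (cur c w) F).coeff t = 0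
    rw [hz F hF, Polynomial.coeff_zero]
  · apply left_ne_zero_of_mul hb2
    rw [h0, sub_self, Polynomial.coeff_zero]

end Pool.Agent.Q33.FP
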