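import Pool.Agent.Q33.FP.Thm

/-!
Constants; compositions of rational curves with functions of large height.
-/

set_option autoImplicit false

open FF MvPolynomial Pool.Agent.W603.LV
open Pool.Agent.H533R3.SL (cur Uniruled)
open Pool.Agent.Y215.AF (homC homC_sum cur_homC_zero cur_homC_succ GmUniruled)
open Pool.Agent.W235.RM (hmg hmg_homog hmg_eval)
open scoped IntermediateField

namespace Pool.Agent.Q33.FP

section

variable {k K : Type} [Field k] [Field K] [Algebra k K] [CharZero k] [IsFF k K] [IsAlgClosed k]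

omit [CharZero k] [IsFF k K] [IsAlgClosed k] in
theorem ord_const (P : Place k K) (c : k) : P.ord (algebraMap k K c) = 0 := by
  by_contra hne
  exact P.transcendental_of_ord_ne hne (isAlgebraic_algebraMap c)

omit [CharZero k] [IsFF k K] [IsAlgClosed k] in
theorem mo_const {ι : Type} (P : Place k K) (x : ι → k) :
    mo P (fun c => algebraMap k K (x c)) = 0 := by
  unfold mo
  by_cases h : Nonempty {c // algebraMap k K (x c) ≠ 0}
  · rw [show (fun c : {c // algebraMap k K (x c) ≠ 0} => P.ord (algebraMap k K (x c))) =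
      fun _ => (0 : ℤ) from funext fun c => ord_const P _]
    exact ciInf_const
  · rw [not_nonempty_iff] at h
    rw [iInf, Set.range_eq_empty, Int.csInf_empty]

omit [CharZero k] [IsFF k K] [IsAlgClosed k] in
theorem ht_of_const {ι : Type} (x : ι → k) : ht k (fun c => algebraMap k K (x c)) = 0 := by
  unfold ht
  rw [finsum_congr fun P : Place k K => mo_const P x, finsum_zero, neg_zero]

omit [CharZero k] [IsFF k K] [IsAlgClosed k] in
theorem cht_const {σ : Type} (f : MvPolynomial σ k) : cht k K f = 0 := ht_of_const _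

omit [CharZero k] [IsFF k K] [IsAlgClosed k] in
theorem aht_const {ι : Type} (x : ι → k) : aht k (fun c => algebraMap k K (x c)) = 0 := by
  unfold aht
  have h := ht_of_const (K := K) (fun o : Option ι => o.elim 1 x)
  rw [← h]
  refine ht_congr fun a _ => ?_
  constructor
  · rintro ⟨c, rfl⟩
    refine ⟨c, ?_⟩
    cases c with
    | none => exact map_one _
    | some c => rfl
  · rintro ⟨c, rfl⟩
    refine ⟨c, ?_⟩
    cases c with
    | none => exact (map_one _).symm
    | some c => rfl

/-- the height of a ratio of two coordinates is at most the height of the point -/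
theorem hgt_coord {ι : Type} {x : ι → K} (hx : {c | x c ≠ 0}.Finite) {a b : ι} (ha : x a ≠ 0)
    (hb : x b ≠ 0) : hgt k (x a / x b) ≤ ht k x :=
  hgt_ratio (mo_supp hx) (fun P c => mo_ge P hx c) ha hb

theorem hgt_subfield {z y : K} (hz : Transcendental k z) (hy : Transcendental k y)
    (h : y ∈ k⟮z⟯) : hgt k z ≤ hgt k y := by
  rw [Pool.Agent.W603.PV.hgt_eq_finrank hz, Pool.Agent.W603.PV.hgt_eq_finrank hy]
  have h1 : k⟮y⟯ ≤ k⟮z⟯ := by
    rw [IntermediateField.adjoin_simple_le_iff]
    exact h
  have h2 := IntermediateField.relfinrank_mul_finrank_top h1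
  have h3 := IsFF.finite (k := k) hy
  have h4 : 0 < Module.finrank k⟮y⟯ K := Module.finrank_pos
  rw [← h2] at h4 ⊢
  have h5 : 0 < IntermediateField.relfinrank k⟮y⟯ k⟮z⟯ := Nat.pos_of_ne_zero fun h0 => by
    rw [h0, zero_mul] at h4
    exact lt_irrefl _ h4
  exact_mod_cast Nat.le_mul_of_pos_left _ h5

theorem hgt_pos {z : K} (hz : Transcendental k z) : 0 < hgt k z := by
  rw [Pool.Agent.W603.PV.hgt_eq_finrank hz]
  have := IsFF.finite (k := k) hz
  exact_mod_cast (Module.finrank_pos : 0 < Module.finrank k⟮z⟯ K)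

omit [CharZero k] [IsFF k K] [IsAlgClosed k] in
theorem aeval_cur_eval {n r : ℕ} (b : Fin r → Fin (n + 1) → k) (w : Fin r → ℕ) (z : K)
    (i : Fin (n + 1)) : Polynomial.aeval z (cur b w i) =
      pt (fun j i => algebraMap k K (b j i)) (fun j => z ^ w j) i := by
  unfold cur pt
  rw [map_sum]
  refine Finset.sum_congr rfl fun j _ => ?_
  rw [map_mul, Polynomial.aeval_C, map_pow, Polynomial.aeval_X]

omit [CharZero k] [IsFF k K] [IsAlgClosed k] in
theorem aeval_pt {n r : ℕ} (b : Fin r → Fin (n + 1) → k) (w : Fin r → ℕ) (z : K)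
    (F : MvPolynomial (Fin (n + 1)) k) :
    aeval (pt (fun j i => algebraMap k K (b j i)) (fun j => z ^ w j)) F =
      Polynomial.aeval z (aeval (cur b w) F : Polynomial k) := by
  have h1 := congrArg (fun f => f F) (MvPolynomial.comp_aeval (R := k) (cur b w)
    (Polynomial.aeval z : Polynomial k →ₐ[k] K))
  refine Eq.trans ?_ h1.symm
  congr 2
  funext i
  exact (aeval_cur_eval b w z i).symm

omit [CharZero k] [IsFF k K] [IsAlgClosed k] in
theorem pt_mem {n r : ℕ} (b : Fin r → Fin (n + 1) → k) (w : Fin r → ℕ) (z : K)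
    (i : Fin (n + 1)) : pt (fun j i => algebraMap k K (b j i)) (fun j => z ^ w j) i ∈ k⟮z⟯ := by
  unfold pt
  refine sum_mem fun j _ => mul_mem (IntermediateField.algebraMap_mem _ _)
    (pow_mem (IntermediateField.mem_adjoin_simple_self k z) _)

omit [CharZero k] [IsFF k K] [IsAlgClosed k] in
theorem cur_one {n r : ℕ} (b : Fin r → Fin (n + 1) → k) (w : Fin r → ℕ) (i : Fin (n + 1)) :
    (cur b w i).eval 1 = ∑ j, b j i := by
  rw [cur_eval]
  simp

/-- **Growth**: the height of the composition of a nonconstant curve with `z`. -/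
theorem ht_comp {n r : ℕ} {b : Fin r → Fin (n + 1) → k} {w : Fin r → ℕ} (hnc : NC b w) {z : K}
    (hz : Transcendental k z) :
    hgt k z ≤ ht k (pt (fun j i => algebraMap k K (b j i)) (fun j => z ^ w j)) := by
  set x : Fin (n + 1) → K := pt (fun j i => algebraMap k K (b j i)) (fun j => z ^ w j) with hx
  by_contra hcon
  push Not at hcon
  obtain ⟨i, i', hii⟩ := hnc
  have hinj : Function.Injective (Polynomial.aeval z : Polynomial k →ₐ[k] K) :=
    transcendental_iff_injective.1 hz
  have hc : ∀ i, Polynomial.aeval z (cur b w i) = x i := aeval_cur_eval b w z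
  have hzero : ∀ i, x i = 0 → cur b w i = 0 := by
    intro i h0
    apply hinj
    rw [hc i, h0, map_zero]
  have hsum : ∀ i, x i = 0 → ∑ j, b j i = 0 := by
    intro i h0
    rw [← cur_one b w i, hzero i h0, Polynomial.eval_zero]
  apply hii
  by_cases h1 : x i = 0
  · rw [hzero i h1, hsum i h1, Polynomial.C_0, mul_zero, zero_mul]
  by_cases h2 : x i' = 0
  · rw [hzero i' h2, hsum i' h2, Polynomial.C_0, mul_zero, zero_mul]
  have h3 := hgt_coord (k := k) (fin_finite x) h1 h2
  have h4 : ¬ Transcendental k (x i / x i') := by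
    intro ht
    have h5 := hgt_subfield hz ht (div_mem (pt_mem b w z i) (pt_mem b w z i'))
    linarith
  have h5 : IsAlgebraic k (x i / x i') := by
    by_contra hcon
    exact h4 hcon
  have h6 := IsAlgClosed.degree_eq_one_of_irreducible k (minpoly.irreducible h5.isIntegral)
  obtain ⟨c, hcc⟩ := minpoly.mem_range_of_degree_eq_one k _ h6
  have h7 : cur b w i = Polynomial.C c * cur b w i' := by
    apply hinj
    rw [map_mul, hc, hc, Polynomial.aeval_C, hcc, div_mul_cancel₀ _ h2]
  have h8 : ∑ j, b j i = c * ∑ j, b j i' := by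
    rw [← cur_one b w i, h7, Polynomial.eval_mul, Polynomial.eval_C, cur_one]
  rw [h7, h8, Polynomial.C_mul]
  ring

omit [CharZero k] [IsFF k K] [IsAlgClosed k] in
theorem comp_zero {n r : ℕ} {b : Fin r → Fin (n + 1) → k} {w : Fin r → ℕ}
    {F : MvPolynomial (Fin (n + 1)) k} (h : aeval (cur b w) F = 0) (z : K) :
    aeval (pt (fun j i => algebraMap k K (b j i)) (fun j => z ^ w j)) F = 0 := by
  rw [aeval_pt, h, map_zero]

omit [CharZero k] [IsFF k K] [IsAlgClosed k] in
theorem comp_ne {n r : ℕ} {b : Fin r → Fin (n + 1) → k} {w : Fin r → ℕ}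
    {G : MvPolynomial (Fin (n + 1)) k} (h : aeval (fun i => ∑ j, b j i) G ≠ 0) {z : K}
    (hz : Transcendental k z) :
    aeval (pt (fun j i => algebraMap k K (b j i)) (fun j => z ^ w j)) G ≠ 0 := by
  rw [aeval_pt]
  intro h0
  apply h
  have hinj : Function.Injective (Polynomial.aeval z : Polynomial k →ₐ[k] K) :=
    transcendental_iff_injective.1 hz
  have h1 : (aeval (cur b w) G : Polynomial k) = 0 := by
    apply hinj
    rw [h0, map_zero]
  have h2 := Pool.Agent.Y215.AF.aeval_eval (cur b w) G 1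
  rw [h1, Polynomial.eval_zero] at h2
  rw [h2]
  congr 2
  funext i
  exact (cur_one b w i).symm

omit [CharZero k] [IsFF k K] [IsAlgClosed k] in
theorem transcendental_pow {z : K} (hz : Transcendental k z) {m : ℕ} (hm : 0 < m) :
    Transcendental k (z ^ m) := fun h => hz (h.of_pow hm)

end

section

variable {k : Type} [Field k] {n : ℕ}

/-- a uniruled variety is covered by rational curves with a bounded number of terms -/
theorem uniruled_cur {X : Set (MvPolynomial (Fin (n + 1)) k)} (hu : Uniruled (Ideal.span X)) :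
    ∃ (r : ℕ) (w : Fin r → ℕ) (L : Type) (_ : Field L) (_ : Algebra k L)
      (c : Fin r → Fin (n + 1) → L), (∀ F ∈ X, aeval (cur c w) F = 0) ∧ NC c w ∧
      ∀ G : MvPolynomial (Fin (n + 1)) k, (∃ e, G.IsHomogeneous e) → G ∉ Ideal.span X →
        aeval (fun i => ∑ j, c j i) G ≠ 0 := by
  classical
  obtain ⟨L, _, _, p, h1, h2, i, i', h3⟩ := hu
  set D : ℕ := Finset.univ.sup fun i => (p i).natDegree with hD
  have hcur : cur (fun (j : Fin (D + 1)) i => (p i).coeff j) (fun j => (j : ℕ)) = p := by
    funext i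
    unfold cur
    rw [Fin.sum_univ_eq_sum_range (fun j => Polynomial.C ((p i).coeff j) * Polynomial.X ^ j)]
    exact ((p i).as_sum_range_C_mul_X_pow' (by
      have : (p i).natDegree ≤ D := Finset.le_sup (f := fun i => (p i).natDegree)
        (Finset.mem_univ i)
      omega)).symm
  have hsum : ∀ i, ∑ j : Fin (D + 1), (p i).coeff j = (p i).eval 1 := by
    intro i
    have h4 := cur_eval (fun (j : Fin (D + 1)) i => (p i).coeff j) (fun j => (j : ℕ)) i 1
    rw [hcur] at h4
    rw [h4]
    simp
  refine ⟨D + 1, fun j => (j : ℕ), L, inferInstance, inferInstance,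
    fun j i => (p i).coeff j, ?_, ⟨i, i', ?_⟩, ?_⟩
  · intro F hF
    rw [hcur]
    exact h1 F (Ideal.subset_span hF)
  · rw [hcur, hsum, hsum]
    exact h3
  · intro G hG hGI
    have h4 := h2 G hG hGI
    simp only [hsum]
    exact h4

/-- a variety dominated by punctured lines is covered by punctured lines with a bounded number of
terms -/
theorem gmUniruled_cur [CharZero k] {U : Set (MvPolynomial (Fin n) k)} (d : ℕ)
    (hU : ∀ f ∈ U, f.totalDegree ≤ d) (hu : GmUniruled (Ideal.span U)) :
    ∃ (r : ℕ) (w : Fin (r + 1) → ℕ) (L : Type) (_ : Field L) (_ : Algebra k L)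
      (c : Fin r → Fin n → L), (∀ F ∈ U, aeval (cur (homC c) w) (hmg d F) = 0) ∧ NC (homC c) w ∧
      ∀ G : MvPolynomial (Fin n) k, G ∉ Ideal.span U → aeval (fun i => ∑ j, c j i) G ≠ 0 := by
  classical
  obtain ⟨L, iL, iA, v, hlaur, h1, h2, t, s, ht, hs, hts⟩ := hu
  have hL : CharZero L := charZero_of_injective_algebraMap (algebraMap k L).injective
  choose N P hP using hlaur
  set N0 : ℕ := Finset.univ.sup N with hN0
  set Q : Fin n → Polynomial L := fun a => P a * Polynomial.X ^ (N0 - N a) with hQ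
  have hQv : ∀ (a : Fin n) (t : L), t ≠ 0 → (Q a).eval t = v t a * t ^ N0 := by
    intro a t ht
    have h3 : N a ≤ N0 := Finset.le_sup (f := N) (Finset.mem_univ a)
    rw [hQ]
    simp only [Polynomial.eval_mul, Polynomial.eval_pow, Polynomial.eval_X]
    rw [← hP a t ht, mul_assoc, ← pow_add, Nat.add_sub_cancel' h3]
  set D : ℕ := Finset.univ.sup fun a => (Q a).natDegree with hD
  let c : Fin (D + 1) → Fin n → L := fun j a => (Q a).coeff j
  let w : Fin (D + 1 + 1) → ℕ := Fin.cons N0 (fun j => (j : ℕ))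
  have hcs : ∀ a, cur (homC c) w a.succ = Q a := by
    intro a
    rw [cur_homC_succ]
    simp only [w, c, Fin.cons_succ]
    rw [Fin.sum_univ_eq_sum_range (fun j => Polynomial.C ((Q a).coeff j) * Polynomial.X ^ j)]
    exact ((Q a).as_sum_range_C_mul_X_pow' (by
      have : (Q a).natDegree ≤ D := Finset.le_sup (f := fun a => (Q a).natDegree)
        (Finset.mem_univ a)
      omega)).symm
  have hc0 : cur (homC c) w 0 = Polynomial.X ^ N0 := by
    rw [cur_homC_zero]
    rfl
  have hsum : ∀ a, ∑ j, c j a = v 1 a := by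
    intro a
    have h3 : ∑ j, c j a = (Q a).eval 1 := by
      rw [← hcs a, cur_homC_succ, Polynomial.eval_finsetSum]
      refine Finset.sum_congr rfl fun j _ => ?_
      simp
    rw [h3, hQv a 1 one_ne_zero, one_pow, mul_one]
  refine ⟨D + 1, w, L, iL, iA, c, fun F hF => ?_, ?_, fun G hG => ?_⟩
  · -- the polynomial vanishes at all nonzero points
    by_contra hne
    have hfin := Polynomial.finite_setOfPred_isRoot hne
    have hinf : Set.Infinite {t : L | t ≠ 0} := by
      rw [show {t : L | t ≠ 0} = ({0} : Set L)ᶜ from by ext; simp]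
      exact (Set.finite_singleton (0 : L)).infinite_compl
    apply hinf
    refine hfin.subset fun t ht => ?_
    have ht : t ≠ 0 := ht
    change (aeval (cur (homC c) w) (hmg d F) : Polynomial L).eval t = 0
    rw [Pool.Agent.Y215.AF.aeval_eval]
    have h3 : (fun i => (cur (homC c) w i).eval t) =
        (Fin.cons (t ^ N0) (fun a => t ^ N0 * v t a) : Fin (n + 1) → L) := by
      funext i
      refine Fin.cases ?_ (fun a => ?_) i
      · rw [hc0]
        simp
      · rw [hcs a, hQv a t ht, Fin.cons_succ, mul_comm]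
    rw [h3, aeval_def, hmg_eval _ d F (hU F hF)]
    have h4 := h1 F (Ideal.subset_span hF) t ht
    rw [aeval_def] at h4
    rw [h4, mul_zero]
  · obtain ⟨a, ha⟩ := Function.ne_iff.1 hts
    refine ⟨0, a.succ, fun h3 => ha ?_⟩
    have e0 : ∑ j, homC c j 0 = 1 := by
      have := congrFun (homC_sum c) 0
      simpa using this
    have e1 : ∑ j, homC c j a.succ = v 1 a := by
      have := congrFun (homC_sum c) a.succ
      simp only [Fin.cons_succ] at this
      rw [this, hsum]
    rw [hc0, hcs, e0, e1, Polynomial.C_1, mul_one] at h3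
    have h4 : ∀ t, t ≠ 0 → v t a = v 1 a := by
      intro t ht
      have h5 := congrArg (fun q : Polynomial L => q.eval t) h3
      simp only [Polynomial.eval_mul, Polynomial.eval_pow, Polynomial.eval_X,
        Polynomial.eval_C] at h5
      rw [hQv a t ht, mul_comm] at h5
      exact (mul_right_cancel₀ (pow_ne_zero _ ht) h5).symm
    rw [h4 t ht, h4 s hs]
  · have h3 := h2 G hG
    rw [show (fun i => ∑ j, c j i) = v 1 from funext hsum]
    exact h3

/-- **Curves over the base field** on a uniruled variety. -/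
theorem uniruled_base [IsAlgClosed k] {X : Set (MvPolynomial (Fin (n + 1)) k)}
    (hu : Uniruled (Ideal.span X)) : ∃ (r : ℕ) (w : Fin r → ℕ),
      ∀ G : MvPolynomial (Fin (n + 1)) k, (∃ e, G.IsHomogeneous e) → G ∉ Ideal.span X →
        ∃ b : Fin r → Fin (n + 1) → k, (∀ F ∈ X, aeval (cur b w) F = 0) ∧ NC b w ∧
          aeval (fun i => ∑ j, b j i) G ≠ 0 := by
  obtain ⟨r, w, L, _, _, c, h1, h2, h3⟩ := uniruled_cur hu
  refine ⟨r, w, fun G hG hGI => ?_⟩
  obtain ⟨b, h4, h5, h6, -⟩ := curve_spec X G w c h1 h2 (h3 G hG hGI)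
  exact ⟨b, h4, h5, h6⟩

/-- curves in affine varieties over an extension specialise to curves over the base field -/
theorem aff_spec [IsAlgClosed k] {r : ℕ} (d : ℕ) (U : Set (MvPolynomial (Fin n) k))
    (G : MvPolynomial (Fin n) k) (w : Fin (r + 1) → ℕ) {L : Type} [Field L] [Algebra k L]
    (c : Fin r → Fin n → L) (hz : ∀ F ∈ U, aeval (cur (homC c) w) (hmg d F) = 0)
    (hnc : NC (homC c) w) (hG : aeval (fun i => ∑ j, c j i) G ≠ 0) :
    ∃ b : Fin r → Fin n → k, (∀ F ∈ U, aeval (cur (homC b) w) (hmg d F) = 0) ∧ NC (homC b) w ∧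
      aeval (fun i => ∑ j, b j i) G ≠ 0 := by
  have hren : ∀ {L' : Type} [Field L'] [Algebra k L'] (x : Fin (n + 1) → L'),
      aeval x (rename Fin.succ G) = aeval (fun i : Fin n => x i.succ) G := by
    intro L' _ _ x
    rw [aeval_rename]
    rfl
  have hs : ∀ {L' : Type} [Field L'] [Algebra k L'] (c : Fin r → Fin n → L'),
      (fun i : Fin n => ∑ j, homC c j i.succ) = fun i => ∑ j, c j i := by
    intro L' _ _ c
    funext i
    have := congrFun (homC_sum c) i.succ
    simp only [Fin.cons_succ] at this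
    exact this
  obtain ⟨b, h1, h2, h3, h4⟩ := curve_spec ((hmg d) '' U) (rename Fin.succ G) w (homC c) (by
    rintro _ ⟨F, hF, rfl⟩
    exact hz F hF) hnc (by
    rw [hren, hs]
    exact hG)
  have hb : b = homC fun j i => b j.succ i.succ := by
    funext j i
    revert i
    refine Fin.cases ?_ (fun j => ?_) j
    · intro i
      refine Fin.cases ?_ (fun i => ?_) i
      · have h5 := h4 (X (0, 0) - 1) (by simp [homC])
        simp only [map_sub, aeval_X, map_one, sub_eq_zero] at h5
        simpa [homC] using h5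
      · have h5 := h4 (X (0, i.succ)) (by simp [homC])
        simp only [aeval_X] at h5
        simpa [homC] using h5
    · intro i
      refine Fin.cases ?_ (fun i => ?_) i
      · have h5 := h4 (X (j.succ, 0)) (by simp [homC])
        simp only [aeval_X] at h5
        simpa [homC] using h5
      · simp [homC]
  refine ⟨fun j i => b j.succ i.succ, fun F hF => ?_, ?_, ?_⟩
  · rw [← hb]
    exact h1 _ ⟨F, hF, rfl⟩
  · rw [← hb]
    exact h2
  · rw [hren] at h3
    have h5 : (fun i : Fin n => ∑ j, b j i.succ) = fun i => ∑ j : Fin r, b j.succ i.succ := by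
      funext i
      rw [Fin.sum_univ_succ]
      have h6 : b 0 i.succ = 0 := by
        rw [hb]
        simp [homC]
      rw [h6, zero_add]
    rw [h5] at h3
    exact h3

/-- **Punctured lines over the base field** on a variety dominated by punctured lines. -/
theorem gmUniruled_base [CharZero k] [IsAlgClosed k] {U : Set (MvPolynomial (Fin n) k)} (d : ℕ)
    (hU : ∀ f ∈ U, f.totalDegree ≤ d) (hu : GmUniruled (Ideal.span U)) :
    ∃ (r : ℕ) (w : Fin (r + 1) → ℕ), ∀ G : MvPolynomial (Fin n) k, G ∉ Ideal.span U →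
      ∃ b : Fin r → Fin n → k, (∀ F ∈ U, aeval (cur (homC b) w) (hmg d F) = 0) ∧ NC (homC b) w ∧
        aeval (fun i => ∑ j, b j i) G ≠ 0 := by
  obtain ⟨r, w, L, _, _, c, h1, h2, h3⟩ := gmUniruled_cur d hU hu
  exact ⟨r, w, fun G hG => aff_spec d U G w c h1 h2 (h3 G hG)⟩

end

section

variable {k K : Type} [Field k] [Field K] [Algebra k K] {n r : ℕ}

/-- the point of the punctured line -/
theorem pt_aff (b : Fin r → Fin n → k) (w : Fin (r + 1) → ℕ) {z : K} (hz : z ≠ 0) :
    pt (fun j i => algebraMap k K (homC b j i)) (fun j => z ^ w j) = fun i => z ^ w 0 *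
      (Fin.cons 1 (fun i => ∑ j, algebraMap k K (b j i) * z ^ ((w j.succ : ℤ) - w 0)) :
        Fin (n + 1) → K) i := by
  funext i
  unfold pt
  rw [Fin.sum_univ_succ]
  refine Fin.cases ?_ (fun i => ?_) i
  · simp [homC]
  · simp only [homC, Fin.cons_zero, Fin.cons_succ, map_zero, zero_mul, zero_add, Finset.mul_sum]
    refine Finset.sum_congr rfl fun j _ => ?_
    rw [zpow_sub₀ hz, zpow_natCast, zpow_natCast]
    have : z ^ w 0 ≠ 0 := pow_ne_zero _ hz
    field_simp

/-- the composition of a punctured line with a function -/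
theorem comp_aff [CharZero k] [IsFF k K] [IsAlgClosed k] (d : ℕ) {U : Set (MvPolynomial (Fin n) k)}
    (hU : ∀ f ∈ U, f.totalDegree ≤ d) {b : Fin r → Fin n → k} {w : Fin (r + 1) → ℕ}
    (h1 : ∀ F ∈ U, aeval (cur (homC b) w) (hmg d F) = 0) (h2 : NC (homC b) w)
    {G : MvPolynomial (Fin n) k} (h3 : aeval (fun i => ∑ j, b j i) G ≠ 0) {z : K}
    (hz : Transcendental k z) :
    (∀ F ∈ U, aeval (fun i => ∑ j, algebraMap k K (b j i) * z ^ ((w j.succ : ℤ) - w 0)) F = 0) ∧
    aeval (fun i => ∑ j, algebraMap k K (b j i) * z ^ ((w j.succ : ℤ) - w 0)) G ≠ 0 ∧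
    hgt k z ≤ aht k (fun i => ∑ j, algebraMap k K (b j i) * z ^ ((w j.succ : ℤ) - w 0)) := by
  have hz0 : z ≠ 0 := by
    rintro rfl
    exact hz isAlgebraic_zero
  set x : Fin n → K := fun i => ∑ j, algebraMap k K (b j i) * z ^ ((w j.succ : ℤ) - w 0) with hx
  have hpt := pt_aff (K := K) b w hz0
  have hcons : (fun i => z ^ w 0 * (Fin.cons 1 x : Fin (n + 1) → K) i) =
      (Fin.cons (z ^ w 0) (fun a => z ^ w 0 * x a) : Fin (n + 1) → K) := by
    funext i
    refine Fin.cases ?_ (fun i => ?_) i
    · simp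
    · simp
  have hev : ∀ (e : ℕ) (F : MvPolynomial (Fin n) k), F.totalDegree ≤ e →
      aeval (pt (fun j i => algebraMap k K (homC b j i)) (fun j => z ^ w j)) (hmg e F) =
        (z ^ w 0) ^ e * aeval x F := by
    intro e F hF
    rw [hpt, hcons, aeval_def, hmg_eval (algebraMap k K) e F hF, aeval_def]
  refine ⟨fun F hF => ?_, ?_, ?_⟩
  · have h4 := comp_zero (K := K) (h1 F hF) z
    rw [hev d F (hU F hF)] at h4
    exact (mul_eq_zero.1 h4).resolve_left (pow_ne_zero _ (pow_ne_zero _ hz0))
  · have h4 := comp_ne (K := K) (b := homC b) (w := w) (G := hmg G.totalDegree G) (by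
      rw [homC_sum, aeval_hmg _ G le_rfl]
      exact h3) hz
    rw [hev _ G le_rfl] at h4
    exact right_ne_zero_of_mul h4
  · have h4 := ht_comp h2 hz
    rw [hpt, ht_mul (k := k) (x := (Fin.cons 1 x : Fin (n + 1) → K)) (fin_finite _)
      (pow_ne_zero _ hz0) (fun c => rfl), ht_cons] at h4
    exact h4

/-- the orders of the powers of a function -/
theorem pow_dvd_ord (P : Place k K) (g : K) (M : ℕ) (e : ℤ) : (M : ℤ) ∣ P.ord ((g ^ M) ^ e) := by
  rw [P.ord_zpow, P.ord_pow]
  exact Dvd.intro_left (e * P.ord g) (by ring)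

end

end Pool.Agent.Q33.FP
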