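import Pool.Agent.Q33.FP.Rat

/-!
Varieties without rational curves, varieties without punctured lines.
-/

set_option autoImplicit false

open FF MvPolynomial Pool.Agent.W603.LV
open Pool.Agent.H533R3.SL (cur Uniruled)
open Pool.Agent.Y215.AF (homC homC_sum cur_homC_zero cur_homC_succ GmUniruled lc lc_laur lc_zero
  lc_nonconst)
open Pool.Agent.W235.RM (hmg hmg_homog hmg_eval)
open Pool.Agent.H159R3.Exp (Laur)
open scoped IntermediateField

namespace Pool.Agent.Q33.FP

variable {k : Type} [Field k] {n : ℕ}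

/-- The projective variety `X` contains no rational curve over `k`: all maps from the line to `X`,
given by polynomials, are constant. -/
def NoRat (X : Set (MvPolynomial (Fin (n + 1)) k)) : Prop :=
  ∀ p : Fin (n + 1) → Polynomial k, (∀ f ∈ X, aeval p f = 0) →
    ∃ (c : Fin (n + 1) → k) (q : Polynomial k), ∀ i, p i = Polynomial.C (c i) * q

/-- The affine variety `U` contains no punctured line over `k`: all maps from the punctured line to
`U`, given by Laurent polynomials, are constant. -/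
def NoGm (U : Set (MvPolynomial (Fin n) k)) : Prop :=
  ∀ v : k → Fin n → k, (∀ a, Laur fun t => v t a) → (∀ f ∈ U, ∀ t, t ≠ 0 → aeval (v t) f = 0) →
    ∀ t s, t ≠ 0 → s ≠ 0 → v t = v s

theorem noRat_cur {X : Set (MvPolynomial (Fin (n + 1)) k)} (h : NoRat X) {r : ℕ}
    (b : Fin r → Fin (n + 1) → k) (w : Fin r → ℕ) (hz : ∀ F ∈ X, aeval (cur b w) F = 0) :
    ¬ NC b w := by
  rintro ⟨i, i', hne⟩
  obtain ⟨c, q, hq⟩ := h (cur b w) hz
  apply hne
  rw [← cur_one b w i, ← cur_one b w i', hq i, hq i', Polynomial.eval_mul, Polynomial.eval_mul,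
    Polynomial.eval_C, Polynomial.eval_C, Polynomial.C_mul, Polynomial.C_mul]
  ring

/-- no curves over extensions -/
theorem noRat_ext [IsAlgClosed k] {X : Set (MvPolynomial (Fin (n + 1)) k)} (h : NoRat X) {r : ℕ}
    {L : Type} [Field L] [Algebra k L] (c : Fin r → Fin (n + 1) → L) (w : Fin r → ℕ)
    (hz : ∀ F ∈ X, aeval (cur c w) F = 0) : ¬ NC c w := by
  intro hnc
  obtain ⟨b, h1, h2, -⟩ := curve_spec X 1 w c hz hnc (by
    rw [map_one]
    exact one_ne_zero)
  exact noRat_cur h b w h1 h2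

theorem poly_cur (p : Fin (n + 1) → Polynomial k) : ∃ (r : ℕ) (w : Fin r → ℕ)
    (b : Fin r → Fin (n + 1) → k), cur b w = p ∧ ∀ i, ∑ j, b j i = (p i).eval 1 := by
  classical
  set D : ℕ := Finset.univ.sup fun i => (p i).natDegree with hD
  have hcur : cur (fun (j : Fin (D + 1)) i => (p i).coeff j) (fun j => (j : ℕ)) = p := by
    funext i
    unfold cur
    rw [Fin.sum_univ_eq_sum_range (fun j => Polynomial.C ((p i).coeff j) * Polynomial.X ^ j)]
    exact ((p i).as_sum_range_C_mul_X_pow' (by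
      have : (p i).natDegree ≤ D := Finset.le_sup (f := fun i => (p i).natDegree)
        (Finset.mem_univ i)
      omega)).symm
  refine ⟨D + 1, fun j => (j : ℕ), fun j i => (p i).coeff j, hcur, fun i => ?_⟩
  have h1 := cur_one (fun (j : Fin (D + 1)) i => (p i).coeff j) (fun j => (j : ℕ)) i
  rw [hcur] at h1
  exact h1.symm

/-- a rational curve can be written as a curve with a nonconstant ratio to its point at `1` -/
theorem cur_of_not_noRat [Infinite k] {X : Set (MvPolynomial (Fin (n + 1)) k)} (h : ¬ NoRat X) :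
    ∃ (r : ℕ) (w : Fin r → ℕ) (b : Fin r → Fin (n + 1) → k),
      (∀ F ∈ X, aeval (cur b w) F = 0) ∧ NC b w := by
  unfold NoRat at h
  push Not at h
  obtain ⟨p, hp, hnc⟩ := h
  -- a point where `p` does not vanish
  have h0 : ∃ i, p i ≠ 0 := by
    by_contra hcon
    push Not at hcon
    obtain ⟨i, hi⟩ := hnc 0 0
    apply hi
    rw [hcon i]
    simp
  obtain ⟨i0, hi0⟩ := h0
  obtain ⟨a, ha⟩ : ∃ a : k, (p i0).eval a ≠ 0 := by
    by_contra hcon
    push Not at hcon
    exact hi0 (Polynomial.funext fun a => by rw [hcon a, Polynomial.eval_zero])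
  let τ : Polynomial k →ₐ[k] Polynomial k := Polynomial.aeval (Polynomial.X + Polynomial.C (a - 1))
  obtain ⟨r, w, b, hb, hsum⟩ := poly_cur fun i => τ (p i)
  have hτ : ∀ q : Polynomial k, (τ q).eval 1 = q.eval a := by
    intro q
    change (Polynomial.aeval (Polynomial.X + Polynomial.C (a - 1)) q).eval 1 = _
    rw [← Polynomial.comp_eq_aeval, Polynomial.eval_comp]
    simp
  refine ⟨r, w, b, fun F hF => ?_, ?_⟩
  · rw [hb]
    have h1 := congrArg (fun f => f F) (MvPolynomial.comp_aeval (R := k) p τ)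
    have h2 : aeval (fun i => τ (p i)) F = τ (aeval p F) := h1.symm
    rw [h2, hp F hF, map_zero]
  · by_contra hcon
    unfold NC at hcon
    push Not at hcon
    have hai : (τ (p i0)).eval 1 ≠ 0 := by
      rw [hτ]
      exact ha
    have h1 : ∀ i, τ (p i) = Polynomial.C ((τ (p i)).eval 1 * ((τ (p i0)).eval 1)⁻¹) *
        τ (p i0) := by
      intro i
      have h2 := hcon i i0
      rw [hb, hsum, hsum] at h2
      rw [Polynomial.C_mul, mul_right_comm, mul_comm (Polynomial.C _) (τ (p i0)), ← h2, mul_assoc,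
        ← Polynomial.C_mul, mul_inv_cancel₀ hai, Polynomial.C_1, mul_one]
    obtain ⟨i, hi⟩ := hnc (fun i => (τ (p i)).eval 1 * ((τ (p i0)).eval 1)⁻¹) (p i0)
    apply hi
    let σ : Polynomial k →ₐ[k] Polynomial k :=
      Polynomial.aeval (Polynomial.X - Polynomial.C (a - 1))
    have hστ : ∀ q : Polynomial k, σ (τ q) = q := by
      intro q
      have h3 : σ.comp τ = AlgHom.id k _ := by
        apply Polynomial.algHom_ext
        simp [σ, τ]
      exact congrArg (fun f => f q) h3
    have h3 := congrArg σ (h1 i)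
    rw [map_mul, hστ, hστ] at h3
    have h4 : ∀ c : k, σ (Polynomial.C c) = Polynomial.C c := fun c => by
      simp [σ]
    rw [h4] at h3
    exact h3

/-- a punctured line can be written as a curve -/
theorem laur_cur [CharZero k] {L : Type} [Field L] [Algebra k L]
    {U : Set (MvPolynomial (Fin n) k)} (d : ℕ) (hU : ∀ f ∈ U, f.totalDegree ≤ d)
    (v : L → Fin n → L) (hlaur : ∀ a, Laur fun t => v t a)
    (h1 : ∀ F ∈ U, ∀ t, t ≠ 0 → aeval (v t) F = 0) (hnc : ∃ t s, t ≠ 0 ∧ s ≠ 0 ∧ v t ≠ v s) :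
    ∃ (r : ℕ) (w : Fin (r + 1) → ℕ) (c : Fin r → Fin n → L),
      (∀ F ∈ U, aeval (cur (homC c) w) (hmg d F) = 0) ∧ NC (homC c) w ∧
      ∀ a, ∑ j, c j a = v 1 a := by
  classical
  obtain ⟨t, s, ht, hs, hts⟩ := hnc
  have hL : CharZero L := charZero_of_injective_algebraMap (algebraMap k L).injective
  choose N P hP using hlaur
  set N0 : ℕ := Finset.univ.sup N with hN0
  set Q : Fin n → Polynomial L := fun a => P a * Polynomial.X ^ (N0 - N a) with hQ
  have hQv : ∀ (a : Fin n) (t : L), t ≠ 0 → (Q a).eval t = v t a * t ^ N0 := by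
    intro a t ht
    have h3 : N a ≤ N0 := Finset.le_sup (f := N) (Finset.mem_univ a)
    rw [hQ]
    simp only [Polynomial.eval_mul, Polynomial.eval_pow, Polynomial.eval_X]
    rw [← hP a t ht, mul_assoc, ← pow_add, Nat.add_sub_cancel' h3]
  set D : ℕ := Finset.univ.sup fun a => (Q a).natDegree with hD
  let c : Fin (D + 1) → Fin n → L := fun j a => (Q a).coeff j
  let w : Fin (D + 1 + 1) → ℕ := Fin.cons N0 (fun j => (j : ℕ))
  have hcs : ∀ a, cur (homC c) w a.succ = Q a := by
    intro a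
    rw [cur_homC_succ]
    simp only [w, c, Fin.cons_succ]
    rw [Fin.sum_univ_eq_sum_range (fun j => Polynomial.C ((Q a).coeff j) * Polynomial.X ^ j)]
    exact ((Q a).as_sum_range_C_mul_X_pow' (by
      have : (Q a).natDegree ≤ D := Finset.le_sup (f := fun a => (Q a).natDegree)
        (Finset.mem_univ a)
      omega)).symm
  have hc0 : cur (homC c) w 0 = Polynomial.X ^ N0 := by
    rw [cur_homC_zero]
    rfl
  have hsum : ∀ a, ∑ j, c j a = v 1 a := by
    intro a
    have h3 : ∑ j, c j a = (Q a).eval 1 := by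
      rw [← hcs a, cur_homC_succ, Polynomial.eval_finsetSum]
      refine Finset.sum_congr rfl fun j _ => ?_
      simp
    rw [h3, hQv a 1 one_ne_zero, one_pow, mul_one]
  refine ⟨D + 1, w, c, fun F hF => ?_, ?_, hsum⟩
  · by_contra hne
    have hfin := Polynomial.finite_setOfPred_isRoot hne
    have hinf : Set.Infinite {t : L | t ≠ 0} := by
      rw [show {t : L | t ≠ 0} = ({0} : Set L)ᶜ from by ext; simp]
      exact (Set.finite_singleton (0 : L)).infinite_compl
    apply hinf
    refine hfin.subset fun t ht => ?_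
    have ht : t ≠ 0 := ht
    change (aeval (cur (homC c) w) (hmg d F) : Polynomial L).eval t = 0
    rw [Pool.Agent.Y215.AF.aeval_eval]
    have h3 : (fun i => (cur (homC c) w i).eval t) =
        (Fin.cons (t ^ N0) (fun a => t ^ N0 * v t a) : Fin (n + 1) → L) := by
      funext i
      refine Fin.cases ?_ (fun a => ?_) i
      · rw [hc0]
        simp
      · rw [hcs a, hQv a t ht, Fin.cons_succ, mul_comm]
    rw [h3, aeval_def, hmg_eval _ d F (hU F hF)]
    have h4 := h1 F hF t ht
    rw [aeval_def] at h4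
    rw [h4, mul_zero]
  · obtain ⟨a, ha⟩ := Function.ne_iff.1 hts
    refine ⟨0, a.succ, fun h3 => ha ?_⟩
    have e0 : ∑ j, homC c j 0 = 1 := by
      have := congrFun (homC_sum c) 0
      simpa using this
    have e1 : ∑ j, homC c j a.succ = v 1 a := by
      have := congrFun (homC_sum c) a.succ
      simp only [Fin.cons_succ] at this
      rw [this, hsum]
    rw [hc0, hcs, e0, e1, Polynomial.C_1, mul_one] at h3
    have h4 : ∀ t, t ≠ 0 → v t a = v 1 a := by
      intro t ht
      have h5 := congrArg (fun q : Polynomial L => q.eval t) h3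
      simp only [Polynomial.eval_mul, Polynomial.eval_pow, Polynomial.eval_X,
        Polynomial.eval_C] at h5
      rw [hQv a t ht, mul_comm] at h5
      exact (mul_right_cancel₀ (pow_ne_zero _ ht) h5).symm
    rw [h4 t ht, h4 s hs]

theorem noGm_cur [CharZero k] {U : Set (MvPolynomial (Fin n) k)} (d : ℕ)
    (hU : ∀ f ∈ U, f.totalDegree ≤ d) (h : NoGm U) {r : ℕ} (b : Fin r → Fin n → k)
    (w : Fin (r + 1) → ℕ) (hz : ∀ F ∈ U, aeval (cur (homC b) w) (hmg d F) = 0) :
    ¬ NC (homC b) w := by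
  rintro ⟨i, i', hne⟩
  obtain ⟨m, hm⟩ := lc_nonconst b w i i' hne
  exact hm (h (lc b w) (lc_laur b w) (fun f hf t ht => lc_zero d f (hU f hf) b w (hz f hf) t ht)
    _ _ (pow_ne_zero _ two_ne_zero) one_ne_zero)

/-- no punctured lines over extensions -/
theorem noGm_ext [CharZero k] [IsAlgClosed k] {U : Set (MvPolynomial (Fin n) k)} (d : ℕ)
    (hU : ∀ f ∈ U, f.totalDegree ≤ d) (h : NoGm U) {r : ℕ} {L : Type} [Field L] [Algebra k L]
    (c : Fin r → Fin n → L) (w : Fin (r + 1) → ℕ)
    (hz : ∀ F ∈ U, aeval (cur (homC c) w) (hmg d F) = 0) : ¬ NC (homC c) w := by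
  intro hnc
  obtain ⟨b, h1, h2, -⟩ := aff_spec d U 1 w c hz hnc (by
    rw [map_one]
    exact one_ne_zero)
  exact noGm_cur d hU h b w h1 h2

theorem cur_of_not_noGm [CharZero k] {U : Set (MvPolynomial (Fin n) k)} (d : ℕ)
    (hU : ∀ f ∈ U, f.totalDegree ≤ d) (h : ¬ NoGm U) :
    ∃ (r : ℕ) (w : Fin (r + 1) → ℕ) (b : Fin r → Fin n → k),
      (∀ F ∈ U, aeval (cur (homC b) w) (hmg d F) = 0) ∧ NC (homC b) w := by
  unfold NoGm at h
  push Not at h
  obtain ⟨v, h1, h2, t, s, ht, hs, hts⟩ := h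
  obtain ⟨r, w, b, h3, h4, -⟩ := laur_cur (L := k) d hU v h1 h2 ⟨t, s, ht, hs, hts⟩
  exact ⟨r, w, b, h3, h4⟩

end Pool.Agent.Q33.FP
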