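import Pool.Agent.Q33.FP.Ht
import Pool.Agent.H533R3.SL.Asm
import Pool.Agent.Y215.AF.LogHyp

/-!
Substitution of a sum of `r` terms in a form: the coefficients and their orders.
-/

set_option autoImplicit false

open FF MvPolynomial Pool.Agent.W603.LV
open Pool.Agent.H533R3.SL (cur GU aeval_cur)

namespace Pool.Agent.Q33.FP

variable {k κ K : Type} [Field k] [Field κ] [Field K] [Algebra k K] [Algebra κ K] {n r : ℕ}

theorem coeff_scale (u : Fin r → K) (p : MvPolynomial (Fin r) K) (α : Fin r →₀ ℕ) :
    coeff α (aeval (fun j => C (u j) * X j) p : MvPolynomial (Fin r) K) =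
      coeff α p * ∏ j, u j ^ α j := by
  classical
  induction p using MvPolynomial.induction_on' with
  | monomial β c =>
    rw [aeval_monomial, Finsupp.prod_fintype _ _ (fun j => pow_zero _)]
    have h1 : (algebraMap K (MvPolynomial (Fin r) K)) c * ∏ j, (C (u j) * X j) ^ β j =
        monomial β (c * ∏ j, u j ^ β j) := by
      rw [MvPolynomial.algebraMap_eq, Finset.prod_congr rfl fun j _ => mul_pow (C (u j)) (X j) (β j),
        Finset.prod_mul_distrib, ← mul_assoc, monomial_eq,
        Finsupp.prod_fintype _ _ (fun j => pow_zero _)]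
      congr 1
      rw [C_mul, map_prod]
      congr 1
      exact Finset.prod_congr rfl fun j _ => (map_pow C _ _).symm
    rw [h1, coeff_monomial, coeff_monomial]
    split_ifs with h
    · rw [h]
    · rw [zero_mul]
  | add p q hp hq =>
    rw [map_add, coeff_add, hp, hq, coeff_add, add_mul]

theorem GU_scale (v : Fin r → Fin (n + 1) → K) (u : Fin r → K) (F : MvPolynomial (Fin (n + 1)) κ) :
    GU (fun j i => v j i * u j) F =
      (aeval (fun j => C (u j) * X j) (GU v F) : MvPolynomial (Fin r) K) := by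
  have h := MvPolynomial.comp_aeval (R := κ)
    (fun i => ∑ j, C (v j i) * X j : Fin (n + 1) → MvPolynomial (Fin r) K)
    ((aeval (fun j => C (u j) * X j : Fin r → MvPolynomial (Fin r) K) :
      MvPolynomial (Fin r) K →ₐ[K] MvPolynomial (Fin r) K).restrictScalars κ)
  have h2 := congrArg (fun f => f F) h
  refine Eq.trans ?_ h2.symm
  unfold GU
  congr 2
  funext i
  change _ = (aeval (fun j => C (u j) * X j : Fin r → MvPolynomial (Fin r) K) :
      MvPolynomial (Fin r) K →ₐ[K] MvPolynomial (Fin r) K) (∑ j, C (v j i) * X j)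
  rw [map_sum]
  refine Finset.sum_congr rfl fun j _ => ?_
  have h3 : (aeval (fun j => C (u j) * X j : Fin r → MvPolynomial (Fin r) K) :
      MvPolynomial (Fin r) K →ₐ[K] MvPolynomial (Fin r) K) (C (v j i)) = C (v j i) := by
    have := (aeval (fun j => C (u j) * X j : Fin r → MvPolynomial (Fin r) K) :
      MvPolynomial (Fin r) K →ₐ[K] MvPolynomial (Fin r) K).commutes (v j i)
    exact this
  have h4 := map_mul (aeval (fun j => C (u j) * X j : Fin r → MvPolynomial (Fin r) K) :
      MvPolynomial (Fin r) K →ₐ[K] MvPolynomial (Fin r) K) (C (v j i)) (X j)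
  rw [h4, h3, aeval_X, C_mul]
  ring

theorem coeff_GU (v : Fin r → Fin (n + 1) → K) (u : Fin r → K) (F : MvPolynomial (Fin (n + 1)) κ)
    (α : Fin r →₀ ℕ) :
    coeff α (GU (fun j i => v j i * u j) F) = coeff α (GU v F) * ∏ j, u j ^ α j := by
  rw [GU_scale, coeff_scale]

theorem supp_GU (v : Fin r → Fin (n + 1) → K) {u : Fin r → K} (hu : ∀ j, u j ≠ 0)
    (F : MvPolynomial (Fin (n + 1)) κ) :
    (GU (fun j i => v j i * u j) F).support = (GU v F).support := by
  ext α
  rw [mem_support_iff, mem_support_iff, coeff_GU]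
  constructor
  · intro h h0
    exact h (by rw [h0, zero_mul])
  · intro h
    exact mul_ne_zero h (Finset.prod_ne_zero_iff.2 fun j _ => pow_ne_zero _ (hu j))

/-- the value of a form at a sum of terms -/
theorem value_GU (v : Fin r → Fin (n + 1) → K) {u : Fin r → K} (hu : ∀ j, u j ≠ 0)
    (F : MvPolynomial (Fin (n + 1)) κ) :
    aeval (fun i => ∑ j, v j i * u j) F =
      ∑ α ∈ (GU v F).support, coeff α (GU v F) * ∏ j, u j ^ α j := by
  have h1 := congrArg (fun q : Polynomial K => q.eval 1)
    (aeval_cur (fun j i => v j i * u j) (fun _ => 0) F)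
  rw [Pool.Agent.Y215.AF.aeval_eval] at h1
  simp only [Pool.Agent.H533R3.SL.cur_eval_one] at h1
  rw [h1, supp_GU v hu, Polynomial.eval_finsetSum]
  refine Finset.sum_congr rfl fun α _ => ?_
  rw [coeff_GU, Polynomial.eval_mul, Polynomial.eval_C, Polynomial.eval_pow, Polynomial.eval_X,
    one_pow, mul_one]

theorem GU_homog {v : Fin r → Fin (n + 1) → K} {F : MvPolynomial (Fin (n + 1)) κ} {e : ℕ}
    (hF : F.IsHomogeneous e) {α : Fin r →₀ ℕ} (hα : α ∈ (GU v F).support) : ∑ j, α j = e := by
  have h1 : (GU v F).IsHomogeneous (1 * e) := by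
    unfold GU
    refine hF.aeval _ (fun i => ?_)
    refine MvPolynomial.IsHomogeneous.sum _ _ _ fun j _ => ?_
    simpa using (MvPolynomial.isHomogeneous_C (Fin r) (v j i)).mul
      (MvPolynomial.isHomogeneous_X K j)
  rw [one_mul] at h1
  have h2 := h1 (MvPolynomial.mem_support_iff.1 hα)
  rw [Finsupp.weight_apply, Finsupp.sum_fintype _ _ (by simp)] at h2
  simpa using h2

theorem GU_card {v : Fin r → Fin (n + 1) → K} {F : MvPolynomial (Fin (n + 1)) κ} {e : ℕ}
    (hF : F.IsHomogeneous e) : (GU v F).support.card ≤ (r + e - 1).choose e := by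
  classical
  have h1 : (GU v F).support ⊆ (Finset.univ : Finset (Fin r)).finsuppAntidiag e := by
    intro a ha
    rw [Finset.mem_finsuppAntidiag]
    exact ⟨GU_homog hF ha, fun j _ => Finset.mem_univ j⟩
  refine (Finset.card_le_card h1).trans ?_
  rw [Finset.card_finsuppAntidiag_nat_eq_choose, Finset.card_univ, Fintype.card_fin]

/-- all coefficients vanish to order at least `N` at `P` -/
def GeP (P : Place k K) (N : ℤ) {σ : Type} (p : MvPolynomial σ K) : Prop :=
  ∀ α, Ge P N (coeff α p)

namespace GeP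

variable {P : Place k K} {N M : ℤ} {σ : Type} {p q : MvPolynomial σ K}

theorem one : GeP P 0 (1 : MvPolynomial σ K) := by
  classical
  intro α
  rw [coeff_one]
  split_ifs
  · exact Ge.one
  · exact Ge.zero

theorem sum {ι : Type*} (s : Finset ι) (f : ι → MvPolynomial σ K) (h : ∀ i ∈ s, GeP P N (f i)) :
    GeP P N (∑ i ∈ s, f i) := by
  intro α
  rw [coeff_sum]
  exact Ge.sum s _ fun i hi => h i hi α

theorem mul (hp : GeP P N p) (hq : GeP P M q) : GeP P (N + M) (p * q) := by
  classical
  intro α
  rw [coeff_mul]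
  exact Ge.sum _ _ fun i _ => Ge.mul (hp i.1) (hq i.2)

theorem pow (hp : GeP P N p) (m : ℕ) : GeP P (m * N) (p ^ m) := by
  induction m with
  | zero => simpa using one (P := P) (σ := σ)
  | succ m ih =>
    rw [pow_succ]
    have := ih.mul hp
    intro α
    refine Ge.mono (le_of_eq ?_) (this α)
    push_cast
    ring

theorem prod {ι : Type*} (s : Finset ι) (f : ι → MvPolynomial σ K) (m : ι → ℤ)
    (h : ∀ i ∈ s, GeP P (m i) (f i)) : GeP P (∑ i ∈ s, m i) (∏ i ∈ s, f i) := by
  classical
  induction s using Finset.induction_on with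
  | empty => simpa using one (P := P) (σ := σ)
  | insert a s ha ih =>
    rw [Finset.prod_insert ha, Finset.sum_insert ha]
    exact (h a (Finset.mem_insert_self a s)).mul (ih fun i hi => h i (Finset.mem_insert_of_mem hi))

theorem C {a : K} (ha : Ge P N a) : GeP P N (MvPolynomial.C a : MvPolynomial σ K) := by
  classical
  intro α
  rw [coeff_C]
  split_ifs
  · exact ha
  · exact Ge.zero

theorem X (i : σ) : GeP P 0 (MvPolynomial.X i : MvPolynomial σ K) := by
  classical
  intro α
  rw [MvPolynomial.coeff_X]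
  split_ifs
  · exact Ge.one
  · exact Ge.zero

end GeP

/-- **Orders of the coefficients.** -/
theorem GU_ge (P : Place k K) {v : Fin r → Fin (n + 1) → K} {F : MvPolynomial (Fin (n + 1)) κ}
    {e : ℕ} (hF : F.IsHomogeneous e) {μ l : ℤ}
    (hμ : ∀ m, Ge P μ (algebraMap κ K (coeff m F))) (hl : ∀ j i, Ge P l (v j i))
    (α : Fin r →₀ ℕ) : Ge P (μ + e * l) (coeff α (GU v F)) := by
  classical
  have key : GeP P (μ + e * l) (GU v F) := by
    unfold GU
    rw [aeval_def, eval₂_eq']
    refine GeP.sum _ _ fun m hm => ?_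
    have h1 : ∑ i, m i = e := by
      have := hF (mem_support_iff.1 hm)
      rw [← this, Finsupp.weight_apply, Finsupp.sum_fintype _ _ (by simp)]
      simp
    have h2 : GeP P μ (algebraMap κ (MvPolynomial (Fin r) K) (coeff m F)) := by
      have : algebraMap κ (MvPolynomial (Fin r) K) (coeff m F) = C (algebraMap κ K (coeff m F)) :=
        rfl
      rw [this]
      exact GeP.C (hμ m)
    have h3 : ∀ i ∈ (Finset.univ : Finset (Fin (n + 1))), GeP P (m i * l)
        ((∑ j, C (v j i) * X j : MvPolynomial (Fin r) K) ^ m i) := by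
      intro i _
      apply GeP.pow
      apply GeP.sum
      intro j _
      have := (GeP.C (σ := Fin r) (hl j i)).mul (GeP.X (P := P) j)
      rw [add_zero] at this
      exact this
    have h4 := h2.mul (GeP.prod Finset.univ _ _ h3)
    rw [← Finset.sum_mul] at h4
    have h5 : (∑ i, (m i : ℤ)) = e := by exact_mod_cast h1
    rw [h5] at h4
    exact h4
  exact key α

end Pool.Agent.Q33.FP
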