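import Pool.Agent.Q33.FP.Rat2

/-!
Unbounded families of maps with few terms; the function field of the line.
-/

set_option autoImplicit false

open FF MvPolynomial Pool.Agent.W603.LV
open Pool.Agent.H533R3.SL (cur Uniruled)
open Pool.Agent.Y215.AF (homC GmUniruled)
open Pool.Agent.W235.RM (hmg)
open scoped IntermediateField

namespace Pool.Agent.Q33.FP

theorem isFF_line (k : Type) [Field k] : IsFF k (RatFunc k) := by
  refine IsFF.of_finite (f := (RatFunc.X : RatFunc k)) RatFunc.transcendental_X ?_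
  rw [RatFunc.adjoin_X]
  refine ⟨⟨{1}, ?_⟩⟩
  rw [eq_top_iff]
  intro x _
  have h : x = (⟨x, IntermediateField.mem_top⟩ : (⊤ : IntermediateField k (RatFunc k))) •
      (1 : RatFunc k) := by
    rw [IntermediateField.smul_def, smul_eq_mul, mul_one]
  rw [h]
  exact Submodule.smul_mem _ _ (Submodule.subset_span (by simp))

section

variable {k K : Type} [Field k] [Field K] [Algebra k K] [CharZero k] [IsFF k K] [IsAlgClosed k]
  {n : ℕ}

theorem hgt_big {g : K} (hg : Transcendental k g) (B : ℕ) {M : ℕ} (hM : 0 < M) :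
    Transcendental k ((g ^ M) ^ (B + 1)) ∧ (B : ℤ) < hgt k ((g ^ M) ^ (B + 1)) := by
  have hg0 : g ≠ 0 := by
    rintro rfl
    exact hg isAlgebraic_zero
  refine ⟨transcendental_pow (transcendental_pow hg hM) B.succ_pos, ?_⟩
  rw [hgt_pow (pow_ne_zero _ hg0), hgt_pow hg0]
  have h1 := hgt_pos hg
  push_cast
  nlinarith [mul_pos (by exact_mod_cast hM : (0 : ℤ) < M) h1]

/-- A point over `K` of projective space with few terms: all coordinates are linear combinations
with constant coefficients of `r` nonzero functions with orders divisible by `M` at all places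
outside `S`. -/
def TermPt (r M : ℕ) (S : Finset (Place k K)) {m : ℕ} (x : Fin m → K) : Prop :=
  ∃ (c : Fin r → Fin m → k) (u : Fin r → K), Units S M u ∧
    ∀ i, x i = ∑ j, algebraMap k K (c j i) * u j

/-- A point over `K` of affine space with few terms, regular outside `S`: all coordinates are linear
combinations with constant coefficients of `r` functions without zeros and poles outside `S`. -/
def UnitPt (r : ℕ) (S : Finset (Place k K)) {m : ℕ} (x : Fin m → K) : Prop :=
  ∃ (c : Fin r → Fin m → k) (u : Fin r → K), (∀ j, u j ≠ 0 ∧ ∀ P ∉ S, P.ord (u j) = 0) ∧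
    ∀ i, x i = ∑ j, algebraMap k K (c j i) * u j

/-- projective varieties: from a curve over `k` to points of large height over `K` -/
theorem big_proj {X : Set (MvPolynomial (Fin (n + 1)) k)} {r : ℕ} {w : Fin r → ℕ}
    {b : Fin r → Fin (n + 1) → k} (h1 : ∀ F ∈ X, aeval (cur b w) F = 0) (h2 : NC b w)
    {G : MvPolynomial (Fin (n + 1)) k} (h3 : aeval (fun i => ∑ j, b j i) G ≠ 0) {M : ℕ}
    (hM : 0 < M) (B : ℕ) : ∃ x : Fin (n + 1) → K, TermPt r M (∅ : Finset (Place k K)) x ∧ x ≠ 0 ∧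
      (∀ F ∈ X, aeval x F = 0) ∧ aeval x G ≠ 0 ∧ (B : ℤ) < ht k x := by
  obtain ⟨g, hg⟩ := IsFF.exists_transcendental (k := k) (K := K)
  obtain ⟨hz, hB⟩ := hgt_big hg B hM
  have hg0 : g ≠ 0 := by
    rintro rfl
    exact hg isAlgebraic_zero
  set z : K := (g ^ M) ^ (B + 1) with hzd
  have hht := ht_comp h2 hz
  refine ⟨pt (fun j i => algebraMap k K (b j i)) (fun j => z ^ w j),
    ⟨b, fun j => z ^ w j, ⟨fun j => pow_ne_zero _ (pow_ne_zero _ (pow_ne_zero _ hg0)),
      fun P _ j => ?_⟩, fun i => rfl⟩, ?_, fun F hF => comp_zero (h1 F hF) z, comp_ne h3 hz,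
    lt_of_lt_of_le hB hht⟩
  · change (M : ℤ) ∣ P.ord (((g ^ M) ^ (B + 1)) ^ w j)
    rw [← pow_mul, ← zpow_natCast]
    exact pow_dvd_ord P g M _
  · intro h0
    rw [h0] at hht
    have h4 : ht k (0 : Fin (n + 1) → K) = 0 := ht_zero fun c => rfl
    have := hgt_pos hz
    linarith

/-- affine varieties: from a punctured line over `k` to points of large height over `K` -/
theorem big_aff (d : ℕ) {U : Set (MvPolynomial (Fin n) k)} (hU : ∀ f ∈ U, f.totalDegree ≤ d)
    {r : ℕ} {b : Fin r → Fin n → k} {w : Fin (r + 1) → ℕ}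
    (h1 : ∀ F ∈ U, aeval (cur (homC b) w) (hmg d F) = 0) (h2 : NC (homC b) w)
    {G : MvPolynomial (Fin n) k} (h3 : aeval (fun i => ∑ j, b j i) G ≠ 0) {S : Finset (Place k K)}
    {g : K} (hg : Transcendental k g) (hgS : ∀ P ∉ S, P.ord g = 0) (B : ℕ) :
    ∃ x : Fin n → K, UnitPt r S x ∧ (∀ F ∈ U, aeval x F = 0) ∧ aeval x G ≠ 0 ∧
      (B : ℤ) < aht k x := by
  obtain ⟨hz, hB⟩ := hgt_big hg B one_pos
  have hg0 : g ≠ 0 := by
    rintro rfl
    exact hg isAlgebraic_zero
  set z : K := (g ^ 1) ^ (B + 1) with hzd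
  obtain ⟨h4, h5, h6⟩ := comp_aff d hU h1 h2 h3 hz
  refine ⟨_, ⟨b, fun j => z ^ ((w j.succ : ℤ) - w 0), fun j => ⟨zpow_ne_zero _ (pow_ne_zero _
    (pow_ne_zero _ hg0)), fun P hP => ?_⟩, fun i => rfl⟩, h4, h5, lt_of_lt_of_le hB h6⟩
  rw [P.ord_zpow, hzd, P.ord_pow, P.ord_pow, hgS P hP]
  ring

end

end Pool.Agent.Q33.FP
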