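import Pool.Agent.Q33.FP.Aff

/-!
Height inequalities for points with few terms.
-/

set_option autoImplicit false

open FF MvPolynomial Pool.Agent.W603.LV
open Pool.Agent.H533R3.SL (cur GU aeval_cur exists_hyper Uniruled)
open Pool.Agent.Y215.AF (homC homC_sum cur_homC_zero cur_homC_succ GmUniruled exists_hyperA lc
  lc_zero lc_nonconst lc_one)
open Pool.Agent.W235.RM (hmg hmg_homog hmg_eval)

namespace Pool.Agent.Q33.FP

variable {k κ K : Type} [Field k] [Field κ] [Field K] [Algebra k K] [Algebra κ K] {n r : ℕ}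

/-- The point `∑ u j v j` lies on the curve `t ↦ ∑ t ^ (w j) u j v j` (a rational curve) in the
projective variety `X`, and this curve is not constant. -/
def OnLine (X : Set (MvPolynomial (Fin (n + 1)) κ)) (v : Fin r → Fin (n + 1) → K) (u : Fin r → K) :
    Prop :=
  ∃ w : Fin r → ℕ, (∀ f ∈ X, ∀ t : K, aeval (fun i => ∑ j, v j i * u j * t ^ w j) f = 0) ∧
    ∃ (t : K) (i i' : Fin (n + 1)), (∑ j, v j i * u j * t ^ w j) * pt v u i' ≠
      (∑ j, v j i' * u j * t ^ w j) * pt v u i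

/-- The point `∑ u j v j` lies on the curve `t ↦ ∑ t ^ (w j) u j v j` (the image of the punctured
line `t ≠ 0`) in the affine variety `U`, and this curve is not constant. -/
def OnGm (U : Set (MvPolynomial (Fin n) κ)) (v : Fin r → Fin n → K) (u : Fin r → K) : Prop :=
  ∃ w : Fin r → ℤ, (∀ f ∈ U, ∀ t : K, t ≠ 0 → aeval (fun i => ∑ j, v j i * u j * t ^ w j) f = 0) ∧
    ∃ t : K, t ≠ 0 ∧ ∃ i, ∑ j, v j i * u j * t ^ w j ≠ ∑ j, v j i * u j

theorem cur_eval {R : Type} [CommRing R] (c : Fin r → Fin (n + 1) → R) (w : Fin r → ℕ)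
    (i : Fin (n + 1)) (t : R) : (cur c w i).eval t = ∑ j, c j i * t ^ w j := by
  unfold cur
  rw [Polynomial.eval_finsetSum]
  refine Finset.sum_congr rfl fun j _ => ?_
  rw [Polynomial.eval_mul, Polynomial.eval_C, Polynomial.eval_pow, Polynomial.eval_X]

theorem onLine_of [CharZero K] {X : Set (MvPolynomial (Fin (n + 1)) κ)}
    {v : Fin r → Fin (n + 1) → K} {u : Fin r → K} {w : Fin r → ℕ}
    (h : ∀ f ∈ X, aeval (cur (fun j i => v j i * u j) w) f = 0)
    (hnc : NC (fun j i => v j i * u j) w) : OnLine X v u := by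
  refine ⟨w, fun f hf t => ?_, ?_⟩
  · have h1 := congrArg (fun q : Polynomial K => q.eval t) (h f hf)
    simp only [Polynomial.eval_zero] at h1
    rw [Pool.Agent.Y215.AF.aeval_eval] at h1
    rw [← h1]
    congr 2
    funext i
    exact (cur_eval (fun j i => v j i * u j) w i t).symm
  · obtain ⟨i, i', hii⟩ := hnc
    by_contra hcon
    push Not at hcon
    apply hii
    apply Polynomial.funext
    intro t
    rw [Polynomial.eval_mul, Polynomial.eval_mul, Polynomial.eval_C, Polynomial.eval_C, cur_eval,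
      cur_eval]
    exact hcon t i i'

theorem onGm_of [CharZero K] (d : ℕ) {U : Set (MvPolynomial (Fin n) κ)}
    (hU : ∀ f ∈ U, f.totalDegree ≤ d) {v : Fin r → Fin n → K} {u : Fin r → K}
    {w : Fin (r + 1) → ℕ}
    (h : ∀ f ∈ U, aeval (cur (homC fun j i => v j i * u j) w) (hmg d f) = 0)
    (hnc : NC (homC fun j i => v j i * u j) w) : OnGm U v u := by
  have hlc : ∀ t : K, t ≠ 0 → lc (fun j i => v j i * u j) w t =
      fun i => ∑ j, v j i * u j * t ^ ((w j.succ : ℤ) - w 0) := by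
    intro t ht
    funext i
    unfold lc
    rw [Finset.sum_div]
    refine Finset.sum_congr rfl fun j _ => ?_
    rw [zpow_sub₀ ht, zpow_natCast, zpow_natCast, mul_div_assoc]
  refine ⟨fun j => (w j.succ : ℤ) - w 0, fun f hf t ht => ?_, ?_⟩
  · have h1 := lc_zero d f (hU f hf) (fun j i => v j i * u j) w (h f hf) t ht
    rw [hlc t ht] at h1
    exact h1
  · obtain ⟨i, i', hii⟩ := hnc
    obtain ⟨m, hm⟩ := lc_nonconst (fun j i => v j i * u j) w i i' hii
    obtain ⟨a, ha⟩ := Function.ne_iff.1 hm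
    refine ⟨2 ^ m, pow_ne_zero _ two_ne_zero, a, ?_⟩
    rw [lc_one, hlc _ (pow_ne_zero _ two_ne_zero)] at ha
    exact ha

/-- **Projective varieties.** -/
theorem proj_main (r d : ℕ) : ∃ A : ℕ, ∀ {k κ K : Type} [Field k] [Field κ] [Field K]
    [Algebra k K] [Algebra κ K] [CharZero k] [IsFF k K] [IsAlgClosed k] {n : ℕ}
    (X : Set (MvPolynomial (Fin (n + 1)) κ)) (_ : ∀ f ∈ X, ∃ e, e ≤ d ∧ f.IsHomogeneous e)
    {h : ℤ} (_ : 0 ≤ h) (_ : ∀ f ∈ X, cht k K f ≤ h) (v : Fin r → Fin (n + 1) → K)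
    (u : Fin r → K) (S : Finset (Place k K)) {M : ℕ} (_ : 0 < M) (_ : modF r d ≤ M)
    (_ : Units S M u) (_ : pt v u ≠ 0) (_ : ∀ f ∈ X, aeval (pt v u) f = 0),
    (OnLine X v u ∧ ∀ G : MvPolynomial (Fin (n + 1)) κ, (∀ (L : Type) [Field L] [Algebra κ L]
      (c : Fin r → Fin (n + 1) → L) (l : Fin r → ℕ), (∀ f ∈ X, aeval (cur c l) f = 0) → NC c l →
        aeval (fun i => ∑ j, c j i) G = 0) → aeval (pt v u) G = 0) ∨
    ht k (pt v u) ≤ A * (max (canDeg k K + S.card) 0 + h + vht k v) := by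
  obtain ⟨A, hA⟩ := dichotomy r d
  refine ⟨A, ?_⟩
  intro k κ K _ _ _ _ _ _ _ _ n X hX h hh0 hh v u S M hM0 hM hu hx hon
  rcases hA X hX hh0 hh v u S hM0 hM hu hx hon with ⟨w, h1, h2⟩ | h1
  · left
    have : CharZero K := charZero_of_injective_algebraMap (algebraMap k K).injective
    exact ⟨onLine_of h1 h2, fun G hG => hG K (fun j i => v j i * u j) w h1 h2⟩
  · exact Or.inr h1

/-- **Affine varieties.** -/
theorem aff_main (r d : ℕ) : ∃ A : ℕ, ∀ {k κ K : Type} [Field k] [Field κ] [Field K]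
    [Algebra k K] [Algebra κ K] [CharZero k] [IsFF k K] [IsAlgClosed k] {n : ℕ}
    (U : Set (MvPolynomial (Fin n) κ)) (_ : ∀ f ∈ U, f.totalDegree ≤ d)
    {h : ℤ} (_ : 0 ≤ h) (_ : ∀ f ∈ U, cht k K f ≤ h) (v : Fin r → Fin n → K)
    (u : Fin r → K) (S : Finset (Place k K)) {M : ℕ} (_ : 0 < M) (_ : modF (r + 1) d ≤ M)
    (_ : Units S M u) (_ : ∀ f ∈ U, aeval (fun i => ∑ j, v j i * u j) f = 0),
    (OnGm U v u ∧ ∀ G : MvPolynomial (Fin n) κ, (∀ (L : Type) [Field L] [Algebra κ L]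
      (c : Fin r → Fin n → L) (l : Fin (r + 1) → ℕ),
        (∀ f ∈ U, aeval (cur (homC c) l) (hmg d f) = 0) → NC (homC c) l →
        aeval (fun i => ∑ j, c j i) G = 0) → aeval (fun i => ∑ j, v j i * u j) G = 0) ∨
    aht k (fun i => ∑ j, v j i * u j) ≤ A * (max (canDeg k K + S.card) 0 + h +
      aht k fun p : Fin r × Fin n => v p.1 p.2) := by
  obtain ⟨A, hA⟩ := dichotomy (r + 1) d
  refine ⟨A, ?_⟩
  intro k κ K _ _ _ _ _ _ _ _ n U hU h hh0 hh v u S M hM0 hM hu hon
  have hpt := pt_homC v u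
  rcases hA ((hmg d) '' U) (by
      rintro _ ⟨f, hf, rfl⟩
      exact ⟨d, le_rfl, hmg_homog d f (hU f hf)⟩) hh0 (by
      rintro _ ⟨f, hf, rfl⟩
      exact (cht_hmg d f).trans (hh f hf)) (homC v) (Fin.cons 1 u) S hM0 hM (by
      refine ⟨fun j => ?_, fun P hP j => ?_⟩
      · refine Fin.cases ?_ (fun j => ?_) j
        · rw [Fin.cons_zero]
          exact one_ne_zero
        · rw [Fin.cons_succ]
          exact hu.1 j
      · refine Fin.cases ?_ (fun j => ?_) j
        · rw [Fin.cons_zero, P.ord_one]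
          exact dvd_zero _
        · rw [Fin.cons_succ]
          exact hu.2 P hP j) (by
      rw [hpt]
      intro h0
      have := congrFun h0 0
      rw [Fin.cons_zero] at this
      exact one_ne_zero this) (by
      rintro _ ⟨f, hf, rfl⟩
      rw [hpt, aeval_hmg d f (hU f hf)]
      exact hon f hf) with ⟨w, h1, h2⟩ | h1
  · left
    have : CharZero K := charZero_of_injective_algebraMap (algebraMap k K).injective
    rw [mul_homC] at h1 h2
    exact ⟨onGm_of d hU (fun f hf => h1 _ ⟨f, hf, rfl⟩) h2, fun G hG =>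
      hG K (fun j i => v j i * u j) w (fun f hf => h1 _ ⟨f, hf, rfl⟩) h2⟩
  · right
    rw [hpt, ht_cons, vht_homC] at h1
    exact h1

end Pool.Agent.Q33.FP
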